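import Pool.Agent.Lib.UPH.PiFJ

/-!
# Groups acting on a semilattice with a shift and on finitely many hyperbolic graphs
-/

set_option autoImplicit false

namespace Pool.Agent.UPH

open Pool.Agent.FJ Pool.Agent.GLN Pool.Agent.LSH Subgroup.Commensurable

/-- The chain bound for a product of two ordered sets. -/
theorem prod_chain {α β : Type*} [PartialOrder α] [PartialOrder β] (φ : α → α) (ψ : β → β)
    (d D : ℕ) (hd : ∀ (m : ℕ) (c : ℕ → α), (∀ k < m, c k < c (k + 1)) → c m ≤ φ (c 0) → m ≤ d)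
    (hD : ∀ (m : ℕ) (c : ℕ → β), (∀ k < m, c k < c (k + 1)) → c m ≤ ψ (c 0) → m ≤ D)
    (m : ℕ) (c : ℕ → α × β) (hc : ∀ k < m, c k < c (k + 1)) (h1 : (c m).1 ≤ φ (c 0).1)
    (h2 : (c m).2 ≤ ψ (c 0).2) : m ≤ d + D := by
  classical
  have hA : ((Finset.range m).filter (fun k => (c k).1 ≠ (c (k + 1)).1)).card ≤ d := by
    obtain ⟨b, hb0, hb1, hb2⟩ := exists_strict_chain (fun k => (c k).1) m
      fun k hk => (hc k hk).le.1
    refine hd _ b hb2 ?_
    rw [hb1, hb0]
    exact h1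
  have hB : ((Finset.range m).filter (fun k => (c k).2 ≠ (c (k + 1)).2)).card ≤ D := by
    obtain ⟨b, hb0, hb1, hb2⟩ := exists_strict_chain (fun k => (c k).2) m
      fun k hk => (hc k hk).le.2
    refine hD _ b hb2 ?_
    rw [hb1, hb0]
    exact h2
  have h3 : Finset.range m ⊆ (Finset.range m).filter (fun k => (c k).1 ≠ (c (k + 1)).1) ∪
      (Finset.range m).filter (fun k => (c k).2 ≠ (c (k + 1)).2) := by
    intro k hk
    rw [Finset.mem_union, Finset.mem_filter, Finset.mem_filter]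
    by_cases h4 : (c k).1 = (c (k + 1)).1
    · refine Or.inr ⟨hk, fun h5 => ?_⟩
      exact (hc k (Finset.mem_range.1 hk)).ne (Prod.ext h4 h5)
    · exact Or.inl ⟨hk, h4⟩
  calc m = (Finset.range m).card := (Finset.card_range m).symm
    _ ≤ _ := Finset.card_le_card h3
    _ ≤ _ := Finset.card_union_le _ _
    _ ≤ d + D := by omega

/-- The product of two order isomorphisms. -/
def prodIso {α β : Type*} [PartialOrder α] [PartialOrder β] (φ : α ≃o α) (ψ : β ≃o β) :
    α × β ≃o α × β where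
  toEquiv := Equiv.prodCongr φ.toEquiv ψ.toEquiv
  map_rel_iff' := by
    intro a b
    exact and_congr φ.le_iff_le ψ.le_iff_le

/-- The group side for a semilattice with a shift and finitely many graphs. -/
theorem mem_of_hull_all {P : ∀ (G : Type) [Group G], Prop} (hP : IsFJClassT P)
    {G L ι Q : Type} [Group G] [Group Q] [SemilatticeSup L] [Nonempty L] [Fintype ι]
    (φ : L ≃o L) (hlt : ∀ x, x < φ x) (hcof : ∀ x y, ∃ n : ℕ, y ≤ (φ ^ n) x) (d₀ : ℕ)
    (hd₀ : ∀ (m : ℕ) (c : ℕ → L), (∀ i < m, c i < c (i + 1)) → c m ≤ φ (c 0) → m ≤ d₀)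
    [MulAction G L] (hmono : ∀ (g : G) (x y : L), x ≤ y → g • x ≤ g • y)
    (hφ : ∀ (g : G) (x : L), g • φ x = φ (g • x))
    {V : ι → Type} [∀ i, MulAction G (V i)] [∀ i, Nonempty (V i)] {d : ∀ i, V i → V i → ℤ}
    {δ : ι → ℤ} (h : ∀ i, Hyp (d i) (δ i))
    (hd : ∀ i, ∀ (g : G) (x y : V i), d i (g • x) (g • y) = d i x y)
    (f : G →* Q) (hQ : P Q)
    (D : ι → ℕ) (hch : ∀ i, ∀ (n : ℕ) (c : ℕ → V i → ℤ), (∀ k, k ≤ n → IsHull (d i) (c k)) →
      (∀ k, k < n → c k ≤ c (k + 1) ∧ c k ≠ c (k + 1)) → (∀ x, c n x ≤ c 0 x + 1) → n ≤ D i)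
    (K : ℕ) (hS1 : ∀ i, ∀ f : V i → ℤ, IsHull (d i) f → ∃ s : Finset (V i), s.Nonempty ∧
      s.card ≤ K ∧ ∀ w, w ∈ s ↔ ∀ x, f w ≤ f x)
    (B : ℕ) (hR : ∀ i, ∀ H : Subgroup G, H ≤ f.ker → (∃ x : L, ∀ g ∈ H, g • x = x) →
      (∃ v : ∀ j, V j, ∀ g ∈ H, ∀ j, j ≠ i → g • v j = v j) →
      (∀ f : V i → ℤ, IsHull (d i) f → (∀ j ∈ H, ∀ x, f (j • x) = f x) →
        (H : Set G).encard ≤ B ∨ ∃ z c, ∀ x, f x = d i x z + c) ∧
      (∀ z z' : V i, z ≠ z' → (∀ j ∈ H, j • z = z ∧ j • z' = z') → (H : Set G).encard ≤ B))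
    (k l : ℕ)
    (hv : ∀ (x : L) (v : ∀ i, V i) (q : Q),
      P (MulAction.stabilizer G x ⊓ MulAction.stabilizer G v ⊓
        (Subgroup.zpowers q).comap f : Subgroup G))
    (hchain : ∀ (v : ∀ i, V i) (A : ℕ → Set L), (∀ i, (A i).Finite) → (∀ i, A i ⊆ A (i + 1)) →
      (∃ x ∈ A 0, ∃ y ∈ A 0, Nonempty ι ∨ ¬ y ≤ (φ ^ k) x) →
      ∃ i < l, fixingSubgroup G (A i) ⊓ MulAction.stabilizer G v ⊓ f.ker =
          fixingSubgroup G (A (i + 1)) ⊓ MulAction.stabilizer G v ⊓ f.ker ∨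
        Subgroup.Commensurable (fixingSubgroup G (A i) ⊓ MulAction.stabilizer G v ⊓ f.ker)
          (fixingSubgroup G (A (i + 1)) ⊓ MulAction.stabilizer G v ⊓ f.ker) ∧
        ∀ q : Q, P (commensurator (fixingSubgroup G (A i) ⊓ MulAction.stabilizer G v ⊓ f.ker) ⊓
          (Subgroup.zpowers q).comap f : Subgroup G))
    (hnorm : ∀ (v : ∀ i, V i) (A : Set L), A.Finite →
      (∃ x ∈ A, ∃ y ∈ A, Nonempty ι ∨ ¬ y ≤ (φ ^ k) x) → ∀ t ∈ MulAction.stabilizer G v,
      (∀ j, j ∈ fixingSubgroup G A ⊓ MulAction.stabilizer G v ⊓ f.ker ↔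
        t * j * t⁻¹ ∈ fixingSubgroup G A ⊓ MulAction.stabilizer G v ⊓ f.ker) →
      P ((fixingSubgroup G A ⊓ MulAction.stabilizer G v ⊓ f.ker) ⊔
        Subgroup.zpowers t : Subgroup G)) : P G := by
  classical
  have hP' := hP.toIsFJClass
  -- the iterates of the shift
  have hiter : ∀ (n : ℕ) (x : L), φ^[n] x = (φ ^ n) x := by
    intro n
    induction n with
    | zero => intro x; rfl
    | succ n ih =>
      intro x
      rw [Function.iterate_succ_apply, ih, pow_succ]
      rfl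
  have hit : ∀ (n : ℕ) (x : L × ∀ i, Hull (d i)),
      (prodIso φ (shiftPi d))^[n] x = (φ^[n] x.1, (shiftPi d)^[n] x.2) := by
    intro n
    induction n with
    | zero => intro x; rfl
    | succ n ih =>
      intro x
      rw [Function.iterate_succ_apply, ih, Function.iterate_succ_apply,
        Function.iterate_succ_apply]
      rfl
  let _ : HasShift (L × ∀ i, Hull (d i)) :=
    { φ := prodIso φ (shiftPi d)
      d := d₀ + ∑ i, D i
      lt := fun t => Prod.mk_lt_mk.2 (Or.inl ⟨hlt t.1, fun i => (lt_shift (t.2 i)).le⟩)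
      cof := fun x y => by
        have h1 := fun i => shift_cof (h i).tri (x.2 i) (y.2 i)
        choose n hn using h1
        obtain ⟨n₀, hn₀⟩ := hcof x.1 y.1
        refine ⟨max n₀ (Finset.univ.sup n), ?_⟩
        rw [hit]
        refine ⟨?_, fun i v => ?_⟩
        · refine (hn₀.trans ?_)
          rw [← hiter]
          refine monotone_nat_of_le_succ (f := fun m => φ^[m] x.1) (fun m => ?_)
            (le_max_left n₀ (Finset.univ.sup n))
          rw [Function.iterate_succ_apply']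
          exact (hlt _).le
        · have h2 : (y.2 i).1 v ≤ ((shift (d i) ^ n i) (x.2 i)).1 v := hn i v
          have h3 : n i ≤ Finset.univ.sup n := Finset.le_sup (Finset.mem_univ i)
          rw [shift_pow] at h2
          change (y.2 i).1 v ≤ (((shiftPi d)^[max n₀ (Finset.univ.sup n)] x.2) i).1 v
          rw [shiftPi_iter]
          have h4 : (n i : ℤ) ≤ (max n₀ (Finset.univ.sup n) : ℕ) := by
            exact_mod_cast h3.trans (le_max_right _ _)
          linarith
      chain := fun m c hc hm => by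
        refine prod_chain φ (shiftPi d) d₀ (∑ i, D i) hd₀ (fun m c hc hm => ?_) m c hc hm.1 hm.2
        refine pi_chain (fun i => shift (d i)) D (fun i m' c' hc' hm' => ?_) m c hc hm
        refine hch i m' (fun k => (c' k).1) (fun k _ => (c' k).2) (fun k hk => ?_) fun x => hm' x
        exact ⟨(hc' k hk).le, fun h1 => (hc' k hk).ne (Subtype.ext h1)⟩ }
  let _ : ShiftAct G (L × ∀ i, Hull (d i)) :=
    { smul := fun g t => (g • t.1, fun i => ⟨fun x => (t.2 i).1 (g⁻¹ • x), (t.2 i).2.smul (hd i) g⟩)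
      one_smul := fun t => by
        refine Prod.ext (one_smul G t.1) ?_
        funext i
        apply Subtype.ext
        funext x
        change (t.2 i).1 ((1 : G)⁻¹ • x) = (t.2 i).1 x
        rw [inv_one, one_smul]
      mul_smul := fun g h t => by
        refine Prod.ext (mul_smul g h t.1) ?_
        funext i
        apply Subtype.ext
        funext x
        change (t.2 i).1 ((g * h)⁻¹ • x) = (t.2 i).1 (h⁻¹ • g⁻¹ • x)
        rw [mul_inv_rev, mul_smul]
      mono := fun g _ _ hxy => ⟨hmono g _ _ hxy.1, fun i x => hxy.2 i (g⁻¹ • x)⟩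
      phi := fun g x => Prod.ext (hφ g x.1) rfl }
  have hsmul : ∀ (g : G) (t : L × ∀ i, Hull (d i)),
      g • t = t ↔ g • t.1 = t.1 ∧ ∀ (i : ι) (x : V i), (t.2 i).1 (g⁻¹ • x) = (t.2 i).1 x := by
    intro g t
    constructor
    · intro h1
      refine ⟨congrArg Prod.fst h1, fun i x => ?_⟩
      exact congrFun (congrArg Subtype.val (congrFun (congrArg Prod.snd h1) i)) x
    · rintro ⟨h1, h2⟩
      exact Prod.ext h1 (funext fun i => Subtype.ext (funext (h2 i)))
  -- far sets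
  have hsh : ∀ v : L × ∀ i, Hull (d i), (sh (k : ℤ) v).1 = (φ ^ k) v.1 := by
    intro v
    have h1 : ∀ (n : ℕ) (x : L × ∀ i, Hull (d i)), (prodIso φ (shiftPi d))^[n] x =
        ((prodIso φ (shiftPi d)) ^ n) x := by
      intro n
      induction n with
      | zero => intro x; rfl
      | succ n ih =>
        intro x
        rw [Function.iterate_succ_apply, ih, pow_succ]
        rfl
    have h2 : sh (k : ℤ) v = (prodIso φ (shiftPi d))^[k] v := by
      rw [h1]
      show ((prodIso φ (shiftPi d)) ^ (k : ℤ)) v = _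
      rw [zpow_natCast]
    rw [h2, hit, hiter]
  have hfarL : ∀ T : Set (L × ∀ i, Hull (d i)), (∃ v ∈ T, ∃ w ∈ T, ¬ w ≤ sh (k : ℤ) v) →
      ∃ x ∈ Prod.fst '' T, ∃ y ∈ Prod.fst '' T, Nonempty ι ∨ ¬ y ≤ (φ ^ k) x := by
    rintro T ⟨v, hv, w, hw, hvw⟩
    refine ⟨v.1, ⟨v, hv, rfl⟩, w.1, ⟨w, hw, rfl⟩, ?_⟩
    by_cases hι : Nonempty ι
    · exact Or.inl hι
    · refine Or.inr fun h1 => hvw ⟨?_, fun i => (hι ⟨i⟩).elim⟩
      rw [hsh]
      exact h1
  -- the pointwise stabilizers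
  have hfixJ : ∀ T : Set (L × ∀ i, Hull (d i)), ∀ j ∈ fixingSubgroup G T ⊓ f.ker,
      ∀ t ∈ Prod.snd '' T, ∀ (i : ι) (x : V i), (t i).1 (j • x) = (t i).1 x := by
    rintro T j hj _ ⟨t, ht, rfl⟩ i x
    have h1 := ((hsmul j t).1 ((mem_fixingSubgroup_iff G).1 hj.1 t ht)).2 i (j • x)
    rw [inv_smul_smul] at h1
    exact h1.symm
  set B' : ℕ := (K + 1) ^ Fintype.card ι * B with hB'
  have hBB' : (B : ℕ∞) ≤ B' := by
    have h1 : B ≤ B' := by
      rw [hB']
      exact Nat.le_mul_of_pos_left B (pow_pos (Nat.succ_pos K) _)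
    exact_mod_cast h1
  have hdich : ∀ T : Set (L × ∀ i, Hull (d i)), T.Nonempty →
      ((fixingSubgroup G T ⊓ f.ker : Subgroup G) : Set G).encard ≤ B' ∨
        ∃ z : ∀ i, V i, ∀ t ∈ T, ∀ i, ∃ c, ∀ x, (t.2 i).1 x = d i x (z i) + c := by
    intro T hT
    obtain ⟨t₀, ht₀⟩ := hT
    refine (dicho_pi h (K := K + 1) (B := B) (fun i f hf => by
      obtain ⟨s, h1, h2, h3⟩ := hS1 i f hf
      exact ⟨s, h1, by omega, h3⟩) (fun i H hH => hR i H (hH.trans inf_le_right) ⟨t₀.1, fun g hg =>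
        ((hsmul g t₀).1 ((mem_fixingSubgroup_iff G).1 (hH hg).1 t₀ ht₀)).1⟩)
      (T := Prod.snd '' T) ⟨_, ⟨t₀, ht₀, rfl⟩⟩ (hfixJ T)).imp_right ?_
    rintro ⟨z, hz⟩
    exact ⟨z, fun t ht => hz t.2 ⟨t, ht, rfl⟩⟩
  have hrad : ∀ (T : Set (L × ∀ i, Hull (d i))) (z : ∀ i, V i), T.Nonempty →
      (∀ t ∈ T, ∀ i, ∃ c, ∀ x, (t.2 i).1 x = d i x (z i) + c) →
      fixingSubgroup G T ⊓ f.ker =
        fixingSubgroup G (Prod.fst '' T) ⊓ MulAction.stabilizer G z ⊓ f.ker := by
    intro T z hT hz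
    ext g
    rw [Subgroup.mem_inf, Subgroup.mem_inf, Subgroup.mem_inf, MulAction.mem_stabilizer_iff]
    refine and_congr_left fun _ => ?_
    rw [mem_fixingSubgroup_iff, mem_fixingSubgroup_iff]
    constructor
    · intro h1
      refine ⟨?_, ?_⟩
      · rintro _ ⟨t, ht, rfl⟩
        exact ((hsmul g t).1 (h1 t ht)).1
      · obtain ⟨t, ht⟩ := hT
        funext i
        obtain ⟨c, hc⟩ := hz t ht i
        exact (radial_fix (h i) (hd i) hc g).1 (((hsmul g t).1 (h1 t ht)).2 i)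
    · rintro ⟨h0, h1⟩ t ht
      refine (hsmul g t).2 ⟨h0 _ ⟨t, ht, rfl⟩, fun i => ?_⟩
      obtain ⟨c, hc⟩ := hz t ht i
      exact (radial_fix (h i) (hd i) hc g).2 (congrFun h1 i)
  refine mem_of_shift_comm (L := L × ∀ i, Hull (d i)) hP f hQ k (l + (B' + 1)) (fun t q => ?_)
    (fun T hfin hmono' hfar => ?_) (fun T hfin hfar t ht => ?_)
  · -- the stabilizers
    have h1 := fun i => hS1 i (t.2 i).1 (t.2 i).2
    choose s hs1 hs2 hs3 using h1
    choose z hz using hs1
    set H : Subgroup G := MulAction.stabilizer G t ⊓ (Subgroup.zpowers q).comap f with hH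
    refine hP'.of_finiteIndex (MulAction.stabilizer H z) ⟨?_⟩ ?_
    · rw [MulAction.index_stabilizer]
      have h1 : (MulAction.orbit H z).Finite := by
        refine (Fintype.piFinset s).finite_toSet.subset ?_
        rintro _ ⟨g, rfl⟩
        refine Fintype.mem_piFinset.2 fun i => (hs3 i _).2 fun x => ?_
        have h2 : (g : G) • t = t := g.2.1
        have h3 := ((hsmul _ t).1 h2).2 i ((g : G) • z i)
        rw [inv_smul_smul] at h3
        have h4 := (hs3 i (z i)).1 (hz i) x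
        change (t.2 i).1 ((g : G) • z i) ≤ (t.2 i).1 x
        rw [← h3]
        exact h4
      exact ((Set.ncard_pos h1).2 ⟨z, MulAction.mem_orbit_self z⟩).ne'
    · refine hP'.of_injective ((H.subtype.comp (MulAction.stabilizer H z).subtype).codRestrict
        (MulAction.stabilizer G t.1 ⊓ MulAction.stabilizer G z ⊓ (Subgroup.zpowers q).comap f)
        fun g => ?_) ?_ (hv t.1 z q)
      · exact ⟨⟨((hsmul _ t).1 g.1.2.1).1, g.2⟩, g.1.2.2⟩
      · intro a b hab
        have h1 := congrArg (fun y : (MulAction.stabilizer G t.1 ⊓ MulAction.stabilizer G z ⊓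
          (Subgroup.zpowers q).comap f : Subgroup G) => (y : G)) hab
        exact Subtype.ext (Subtype.ext h1)
  · -- the chains
    have hfarA := hfarL _ hfar
    obtain ⟨t₀, ht₀, -⟩ := hfar
    have hsub : ∀ i, T 0 ⊆ T i := fun i => by
      induction i with
      | zero => exact subset_rfl
      | succ i ih => exact ih.trans (hmono' i)
    have hsubl : ∀ i, i ≤ l → T i ⊆ T l := fun i hi => monotone_nat_of_le_succ hmono' hi
    have hanti : ∀ i, fixingSubgroup G (T (i + 1)) ⊓ f.ker ≤ fixingSubgroup G (T i) ⊓ f.ker :=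
      fun i => inf_le_inf_right _ (fixingSubgroup_antitone G _ (hmono' i))
    rcases hdich (T l) ⟨t₀, hsub l ht₀⟩ with h1 | ⟨z, hz⟩
    · obtain ⟨i, hi1, hi2, hi3⟩ := exists_eq_of_card
        (J := fun i => fixingSubgroup G (T i) ⊓ f.ker) hanti (i₀ := l) h1
      exact ⟨i, by omega, Or.inl hi3⟩
    · have hJ : ∀ i, i ≤ l → fixingSubgroup G (T i) ⊓ f.ker =
          fixingSubgroup G (Prod.fst '' T i) ⊓ MulAction.stabilizer G z ⊓ f.ker := fun i hi =>
        hrad (T i) z ⟨t₀, hsub i ht₀⟩ fun t ht => hz t (hsubl i hi ht)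
      obtain ⟨i, hi, h2⟩ := hchain z (fun i => Prod.fst '' T i) (fun i => (hfin i).image _)
        (fun i => Set.image_mono (hmono' i)) hfarA
      refine ⟨i, by omega, ?_⟩
      rw [hJ i hi.le, hJ (i + 1) hi]
      exact h2
  · -- the normalizers
    have hfarA := hfarL _ hfar
    obtain ⟨t₀, ht₀, -⟩ := hfar
    by_cases hB : ((fixingSubgroup G T ⊓ f.ker : Subgroup G) : Set G).encard ≤ B'
    · have hfin : Finite (fixingSubgroup G T ⊓ f.ker : Subgroup G) :=
        (Set.finite_of_encard_le_coe hB).to_subtype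
      exact CCC.IsFJClass_sup_zpowers hP' hfin ht
    · obtain ⟨z, hz⟩ := (hdich T ⟨t₀, ht₀⟩).resolve_left hB
      have hJ := hrad T z ⟨t₀, ht₀⟩ hz
      rw [hJ] at ht hB ⊢
      have htz : t • z = z := by
        by_contra hne
        have h0 : ∃ i, t • z i ≠ z i := by
          by_contra hcon
          push Not at hcon
          exact hne (funext hcon)
        obtain ⟨i, hi⟩ := h0
        refine hB ((((hR i (fixingSubgroup G (Prod.fst '' T) ⊓ MulAction.stabilizer G z ⊓ f.ker)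
          inf_le_right ⟨t₀.1, fun g hg => (mem_fixingSubgroup_iff G).1 hg.1.1 _ ⟨t₀, ht₀, rfl⟩⟩
          ⟨z, fun g hg j _ => congrFun (show g • z = z from hg.1.2) j⟩).2 (t • z i) (z i) hi
            fun j hj => ?_)).trans hBB')
        refine ⟨?_, congrFun (show j • z = z from hj.1.2) i⟩
        have h2 : t⁻¹ * j * t ∈
            fixingSubgroup G (Prod.fst '' T) ⊓ MulAction.stabilizer G z ⊓ f.ker := by
          refine (ht _).2 ?_
          have : t * (t⁻¹ * j * t) * t⁻¹ = j := by group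
          rw [this]
          exact hj
        have h3 : (t⁻¹ * j * t) • z i = z i :=
          congrFun (show (t⁻¹ * j * t) • z = z from h2.1.2) i
        rw [mul_smul, mul_smul, inv_smul_eq_iff] at h3
        exact h3
      exact hnorm z _ (hfin.image _) hfarA t htz ht

end Pool.Agent.UPH
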