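import Pool.Agent.Lib.UPH.Angle

/-!
# The chain bound for uniformly fine hyperbolic graphs

The chains of finite maxima of functions `d(·, y) + c` from `c 0` to `c 0 + 1` have bounded length.
No local finiteness is used. A vertex `q` is tame for a set of indices `i` if `d(q, y i) + c i` does
not depend on `i` and the geodesics from `q` to the `y i` have a common first vertex. By the angle
lemma each vertex becomes tame after passing to a large subset, and this is done for all vertices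
of a finite tree which starts at the centre.
-/

set_option autoImplicit false

namespace Pool.Agent.UPH

variable {V : Type} {d : V → V → ℤ} {δ : ℕ}

/-- The data of a chain of hulls: `f` is up to `C` the distance to `m` plus `r`, and the balls
around `y i` reach `f + 1` at `x i` and stay below `f` at `x j` for `i < j`. -/
structure CD (d : V → V → ℤ) (C : ℤ) (m : V) (r : ℤ) (f : V → ℤ) (x y : ℕ → V) (c : ℕ → ℤ)
    (I : Finset ℕ) : Prop where
  lo : ∀ z, r + d z m - C ≤ f z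
  hi : ∀ z, f z ≤ r + d z m + C
  eq : ∀ i ∈ I, d (x i) (y i) + c i = f (x i) + 1
  lt : ∀ i ∈ I, ∀ j ∈ I, i < j → d (x j) (y i) + c i ≤ f (x j)
  le : ∀ i ∈ I, ∀ z, d z (y i) + c i ≤ f z + 1

theorem CD.mono {C : ℤ} {m : V} {r : ℤ} {f : V → ℤ} {x y : ℕ → V} {c : ℕ → ℤ} {I J : Finset ℕ}
    (h : CD d C m r f x y c I) (hJ : J ⊆ I) : CD d C m r f x y c J :=
  ⟨h.lo, h.hi, fun i hi => h.eq i (hJ hi), fun i hi j hj => h.lt i (hJ hi) j (hJ hj),
    fun i hi => h.le i (hJ hi)⟩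

/-- The values at the points of a geodesic from `x j` to `y i` increase strictly. -/
theorem CD.key (h0 : Hyp d (δ : ℤ)) {C : ℤ} {m : V} {r : ℤ} {f : V → ℤ} {x y : ℕ → V} {c : ℕ → ℤ}
    {I : Finset ℕ} (h : CD d C m r f x y c I) {i j : ℕ} (hi : i ∈ I) (hj : j ∈ I) (hij : i < j)
    {p : V} (hp : d (x j) p + d p (y i) = d (x j) (y i)) : d p (y i) + c i < d p (y j) + c j := by
  have h1 := h.lt i hi j hj hij
  have h2 := h.eq j hj
  have h3 := h0.tri (x j) p (y j)
  omega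

theorem CD.window (h0 : Hyp d (δ : ℤ)) {C : ℤ} {m : V} {r : ℤ} {f : V → ℤ} {x y : ℕ → V} {c : ℕ → ℤ}
    {I : Finset ℕ} (h : CD d C m r f x y c I) {i : ℕ} (hi : i ∈ I) {p : V} {s : ℤ}
    (hp : d p m ≤ s) :
    r + 1 - C - s ≤ d p (y i) + c i ∧ d p (y i) + c i ≤ r + 1 + C + s := by
  have h1 := h.le i hi m
  have h2 := h.hi m
  have h3 := h.lo (x i)
  have h4 := h.eq i hi
  have h5 := h0.tri (x i) m (y i)
  have h6 := h0.tri p m (y i)
  have h7 := h0.tri m p (y i)
  have h8 := h0.self m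
  have h9 := h0.symm m p
  constructor <;> omega

/-- `q` is tame to depth `T` for `I`. -/
def Tm (d : V → V → ℤ) (n : ℕ) (y : ℕ → V) (c : ℕ → ℤ) : ℕ → Finset ℕ → V → Prop
  | 0, I, q => ∃ κ : ℤ, ∀ i ∈ I, d q (y i) + c i = κ
  | T + 1, I, q => (∃ κ : ℤ, ∀ i ∈ I, d q (y i) + c i = κ) ∧ ∃ b, d q b = 1 ∧
      (∀ i ∈ I, d b (y i) = d q (y i) - 1) ∧
      ∀ b', d q b' = 1 → Av d q n b b' → Tm d n y c T I b'

theorem Tm.mono {n : ℕ} {y : ℕ → V} {c : ℕ → ℤ} : ∀ (T : ℕ) {I J : Finset ℕ} {q : V},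
    Tm d n y c T I q → J ⊆ I → Tm d n y c T J q := by
  intro T
  induction T with
  | zero =>
    intro I J q h hJ
    obtain ⟨κ, hκ⟩ := h
    exact ⟨κ, fun i hi => hκ i (hJ hi)⟩
  | succ T ih =>
    intro I J q h hJ
    obtain ⟨⟨κ, hκ⟩, b, hb, hb1, hb2⟩ := h
    exact ⟨⟨κ, fun i hi => hκ i (hJ hi)⟩, b, hb, fun i hi => hb1 i (hJ hi),
      fun b' h1 h2 => ih (hb2 b' h1 h2) hJ⟩

theorem Tm.const {n : ℕ} {y : ℕ → V} {c : ℕ → ℤ} {T : ℕ} {I : Finset ℕ} {q : V}
    (h : Tm d n y c T I q) : ∃ κ : ℤ, ∀ i ∈ I, d q (y i) + c i = κ := by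
  cases T with
  | zero => exact h
  | succ T => exact h.1

/-- One vertex becomes tame after passing to a subset of the indices. -/
theorem one_vertex (h0 : Hyp d (δ : ℤ)) {n M W : ℕ} (hn : 12 * δ + 2 ≤ n)
    (hF : ∀ p a, d p a = 1 → ∃ s : Finset V, s.card ≤ M ∧ ∀ b, d p b = 1 → Av d p n a b → b ∈ s)
    {C : ℤ} {m : V} {r : ℤ} {f : V → ℤ} {x y : ℕ → V} {c : ℕ → ℤ}
    {I : Finset ℕ} (h : CD d C m r f x y c I) {q : V} {s : ℤ} (hq : d q m ≤ s)
    (hW : 2 * (C + s) + 1 ≤ W) (k : ℕ) (hI : (W + 1) * ((M + 1) * (k + 1) + 1) ≤ I.card) :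
    ∃ J ⊆ I, k + 1 ≤ J.card ∧ (∃ κ : ℤ, ∀ i ∈ J, d q (y i) + c i = κ) ∧ ∃ b, d q b = 1 ∧
      ∀ i ∈ J, d b (y i) = d q (y i) - 1 := by
  classical
  -- pigeonhole on the values
  obtain ⟨κ, hκ, hκc⟩ := Finset.exists_le_card_fiber_of_mul_le_card_of_maps_to
    (s := I) (t := Finset.Icc (r + 1 - C - s) (r + 1 - C - s + W))
    (f := fun i => d q (y i) + c i) (n := (M + 1) * (k + 1) + 1)
    (fun i hi => by
      have := h.window h0 hi hq
      rw [Finset.mem_Icc]
      constructor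
      · exact this.1
      · omega) ⟨r + 1 - C - s, by rw [Finset.mem_Icc]; omega⟩
    (by
      rw [Int.card_Icc]
      have : (r + 1 - C - s + (W : ℤ) + 1 - (r + 1 - C - s)).toNat = W + 1 := by omega
      rw [this]
      exact hI)
  set I1 := I.filter (fun i => d q (y i) + c i = κ) with hI1
  have hI1s : I1 ⊆ I := Finset.filter_subset _ _
  have hne : I1.Nonempty := Finset.card_pos.mp (by omega)
  set j := I1.max' hne with hj
  have hjm : j ∈ I1 := Finset.max'_mem _ _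
  have hv : ∀ i ∈ I1, d q (y i) + c i = κ := fun i hi => (Finset.mem_filter.mp hi).2
  -- `q` is on no geodesic from `x j` to `y i`
  have hout : ∀ i ∈ I1.erase j, d (x j) (y i) < d (x j) q + d q (y i) := by
    intro i hi
    have hi1 : i ∈ I1 := Finset.mem_of_mem_erase hi
    have hlt : i < j := lt_of_le_of_ne (Finset.le_max' _ _ hi1) (Finset.ne_of_mem_erase hi)
    have h1 := h0.tri (x j) q (y i)
    by_contra hcon
    have h2 := h.key h0 (hI1s hi1) (hI1s hjm) hlt (p := q) (by omega)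
    rw [hv i hi1, hv j hjm] at h2
    exact lt_irrefl _ h2
  have hcard : (M + 1) * (k + 1) ≤ (I1.erase j).card := by
    rw [Finset.card_erase_of_mem hjm]
    omega
  have hne2 : (I1.erase j).Nonempty := Finset.card_pos.mp (by
    have : 0 < (M + 1) * (k + 1) := by positivity
    omega)
  obtain ⟨i0, hi0⟩ := hne2
  have hxq : x j ≠ q := by
    intro hx
    have h1 := hout i0 hi0
    rw [hx, h0.self] at h1
    omega
  have hqx : 0 < d q (x j) := by
    have h1 := h0.nonneg q (x j)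
    rcases h1.lt_or_eq with h2 | h2
    · exact h2
    · exact absurd (h0.eq q (x j) h2.symm).symm hxq
  obtain ⟨a, ha1, ha2⟩ := h0.geo q (x j) 1 (by omega) (by omega)
  obtain ⟨S, hS, hS2⟩ := hF q a ha1
  have hb : ∀ i ∈ I1.erase j, ∃ b ∈ S, d q b = 1 ∧ d b (y i) = d q (y i) - 1 := by
    intro i hi
    have h1 := hout i hi
    have h2 : 0 < d q (y i) := by
      have h3 := h0.nonneg q (y i)
      rcases h3.lt_or_eq with h4 | h4
      · exact h4
      · have h5 := (h0.eq q (y i) h4.symm)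
        rw [← h5, h0.self] at h1
        omega
    obtain ⟨b, hb1, hb2⟩ := h0.geo q (y i) 1 (by omega) (by omega)
    exact ⟨b, hS2 b hb1 ((angle h0 h1 ha1 ha2 hb1 hb2).mono hn), hb1, hb2⟩
  have : Nonempty V := ⟨q⟩
  choose! β hβS hβ1 hβ2 using hb
  obtain ⟨b, hbS, hbc⟩ := Finset.exists_le_card_fiber_of_mul_le_card_of_maps_to
    (s := I1.erase j) (t := S) (f := β) (n := k + 1) hβS ⟨β i0, hβS i0 hi0⟩
    (le_trans (Nat.mul_le_mul_right _ (hS.trans (Nat.le_succ M))) hcard)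
  set J := (I1.erase j).filter (fun i => β i = b) with hJ
  have hJs : J ⊆ I1.erase j := Finset.filter_subset _ _
  have hJe : ∀ i ∈ J, β i = b := fun i hi => (Finset.mem_filter.mp hi).2
  have hJne : J.Nonempty := Finset.card_pos.mp (by omega)
  obtain ⟨i1, hi1⟩ := hJne
  refine ⟨J, fun i hi => hI1s (Finset.mem_of_mem_erase (hJs hi)), hbc,
    ⟨κ, fun i hi => hv i (Finset.mem_of_mem_erase (hJs hi))⟩, b, ?_, fun i hi => ?_⟩
  · rw [← hJe i1 hi1]
    exact hβ1 i1 (hJs hi1)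
  · rw [← hJe i hi]
    exact hβ2 i (hJs hi)

/-- Finitely many vertices become tame one after the other. -/
theorem many_vertices {P : Finset ℕ → V → Prop} (hmono : ∀ I J q, P I q → J ⊆ I → P J q)
    {N : ℕ → ℕ} {I0 : Finset ℕ} {S0 : Set V}
    (hP : ∀ k I q, I ⊆ I0 → q ∈ S0 → N k ≤ I.card → ∃ J ⊆ I, k + 1 ≤ J.card ∧ P J q) :
    ∀ (K k : ℕ) (S : Finset V), S.card ≤ K → (∀ q ∈ S, q ∈ S0) → ∀ I, I ⊆ I0 →
      (fun k => N k + k)^[K] k + 1 ≤ I.card →
      ∃ J ⊆ I, k + 1 ≤ J.card ∧ ∀ q ∈ S, P J q := by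
  classical
  intro K
  induction K with
  | zero =>
    intro k S hS _ I _ hI
    have h1 : S = ∅ := Finset.card_eq_zero.mp (by omega)
    subst h1
    exact ⟨I, Finset.Subset.refl I, hI, fun q hq => absurd hq (Finset.notMem_empty q)⟩
  | succ K ih =>
    intro k S hS hS0 I hI0 hI
    rcases S.eq_empty_or_nonempty with rfl | ⟨q, hq⟩
    · refine ⟨I, Finset.Subset.refl I, le_trans ?_ hI, fun q hq => absurd hq (Finset.notMem_empty q)⟩
      clear hI
      refine Nat.succ_le_succ ?_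
      generalize K + 1 = K'
      induction K' generalizing k with
      | zero => exact le_refl _
      | succ n ih2 =>
        rw [Function.iterate_succ_apply]
        exact le_trans (by omega) (ih2 _)
    · have h1 : (S.erase q).card ≤ K := by
        rw [Finset.card_erase_of_mem hq]
        omega
      rw [Function.iterate_succ_apply] at hI
      obtain ⟨J, hJI, hJc, hJ⟩ := ih (N k + k) (S.erase q) h1
        (fun q' hq' => hS0 q' (Finset.mem_of_mem_erase hq')) I hI0 hI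
      obtain ⟨J', hJ'J, hJ'c, hJ'⟩ := hP k J q (hJI.trans hI0) (hS0 q hq) (by omega)
      refine ⟨J', hJ'J.trans hJI, hJ'c, fun q' hq' => ?_⟩
      by_cases hqq : q' = q
      · rw [hqq]
        exact hJ'
      · exact hmono J J' q' (hJ q' (Finset.mem_erase.mpr ⟨hqq, hq'⟩)) hJ'J

/-- The number of indices needed to make a vertex tame to depth `T`. -/
noncomputable def need (M W : ℕ) : ℕ → ℕ → ℕ
  | 0, k => (W + 1) * ((M + 1) * (k + 1) + 1)
  | T + 1, k => (W + 1) * ((M + 1) * ((fun k => need M W T k + k)^[M] k + 1) + 1)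

theorem tame (h0 : Hyp d (δ : ℤ)) {n M W : ℕ} (hn : 12 * δ + 2 ≤ n)
    (hF : ∀ p a, d p a = 1 → ∃ s : Finset V, s.card ≤ M ∧ ∀ b, d p b = 1 → Av d p n a b → b ∈ s)
    {C : ℤ} {m : V} {r : ℤ} {f : V → ℤ} {x y : ℕ → V} {c : ℕ → ℤ}
    {I0 : Finset ℕ} (h : CD d C m r f x y c I0) {s : ℤ} (hW : 2 * (C + s) + 1 ≤ W) :
    ∀ (T k : ℕ) (I : Finset ℕ) (q : V), I ⊆ I0 → d q m + T ≤ s → need M W T k ≤ I.card →
      ∃ J ⊆ I, k + 1 ≤ J.card ∧ Tm d n y c T J q := by
  intro T
  induction T with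
  | zero =>
    intro k I q hI hq hc
    obtain ⟨J, hJ1, hJ2, hJ3, -⟩ := one_vertex h0 hn hF (h.mono hI) (q := q) (s := s)
      (by push_cast at hq; omega) hW k hc
    exact ⟨J, hJ1, hJ2, hJ3⟩
  | succ T ih =>
    intro k I q hI hq hc
    obtain ⟨J, hJ1, hJ2, hJ3, b, hb1, hb2⟩ := one_vertex h0 hn hF (h.mono hI) (q := q) (s := s)
      (by push_cast at hq; omega) hW _ hc
    obtain ⟨S, hS1, hS2⟩ := hF q b hb1
    obtain ⟨J', hJ'1, hJ'2, hJ'3⟩ := many_vertices (P := fun I q => Tm d n y c T I q)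
      (fun I J q h1 h2 => Tm.mono T h1 h2) (N := need M W T) (I0 := I0)
      (S0 := {q | d q m + T ≤ s}) (fun k I q h1 h2 h3 => ih k I q h1 h2 h3) M k
      (S.filter (fun b' => d q b' = 1)) ((Finset.card_filter_le _ _).trans hS1)
      (fun b' hb' => by
        have h1 := (Finset.mem_filter.mp hb').2
        have h2 := h0.tri b' q m
        have h3 := h0.symm b' q
        show d b' m + T ≤ s
        push_cast at hq
        omega) J (hJ1.trans hI) hJ2
    refine ⟨J', hJ'1.trans hJ1, hJ'2, ?_, b, hb1, fun i hi => hb2 i (hJ'1 hi),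
      fun b' h1 h2 => hJ'3 b' (Finset.mem_filter.mpr ⟨hS2 b' h1 h2, h1⟩)⟩
    obtain ⟨κ, hκ⟩ := hJ3
    exact ⟨κ, fun i hi => hκ i (hJ'1 hi)⟩

/-- Tame vertices: two indices have a common initial segment of length `T`. -/
theorem Tm.far (h0 : Hyp d (δ : ℤ)) {n : ℕ} {y : ℕ → V} {c : ℕ → ℤ} {i j : ℕ} :
    ∀ (T : ℕ) {I : Finset ℕ} {q : V}, i ∈ I → j ∈ I → Tm d n y c T I q →
      ∃ z, d z (y i) = d q (y i) - T ∧ d z (y j) = d q (y j) - T := by
  intro T
  induction T with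
  | zero =>
    intro I q _ _ _
    exact ⟨q, by push_cast; omega, by push_cast; omega⟩
  | succ T ih =>
    intro I q hi hj h
    obtain ⟨-, b, hb1, hb2, hb3⟩ := h
    have hbq : b ≠ q := by
      rintro rfl
      rw [h0.self] at hb1
      omega
    obtain ⟨z, hz1, hz2⟩ := ih hi hj (hb3 b hb1 (Av.refl hbq))
    have h1 := hb2 i hi
    have h2 := hb2 j hj
    exact ⟨z, by push_cast; omega, by push_cast; omega⟩

/-- The nearest point of a geodesic is reached through tame vertices. -/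
theorem Tm.reach (h0 : Hyp d (δ : ℤ)) {n : ℕ} (hn : 12 * δ + 2 ≤ n) {y : ℕ → V} {c : ℕ → ℤ} {i j : ℕ}
    {x : V} {p : V} (hp : d x p + d p (y i) = d x (y i)) :
    ∀ (T : ℕ) {I : Finset ℕ} {q : V}, i ∈ I → j ∈ I → Tm d n y c T I q → d q p ≤ T →
      (∀ z, d q z + d z p = d q p → z ≠ p → d x z + d z (y i) ≠ d x (y i)) →
      d p (y i) + c i = d p (y j) + c j := by
  intro T
  induction T with
  | zero =>
    intro I q hi hj h hq _
    have h1 := h0.nonneg q p
    have h2 : q = p := h0.eq q p (by push_cast at hq; omega)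
    subst h2
    obtain ⟨κ, hκ⟩ := h
    rw [hκ i hi, hκ j hj]
  | succ T ih =>
    intro I q hi hj h hq hz
    by_cases hqp : q = p
    · subst hqp
      obtain ⟨κ, hκ⟩ := h.const
      rw [hκ i hi, hκ j hj]
    · obtain ⟨-, b, hb1, hb2, hb3⟩ := h
      have h1 : 0 < d q p := by
        have h2 := h0.nonneg q p
        rcases h2.lt_or_eq with h3 | h3
        · exact h3
        · exact absurd (h0.eq q p h3.symm) hqp
      obtain ⟨q', hq1, hq2⟩ := h0.geo q p 1 (by omega) (by omega)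
      have h2 : d p (y i) < d p q + d q (y i) := by
        have h3 := hz q (by rw [h0.self]; omega) hqp
        have h4 := h0.tri x q (y i)
        have h5 := h0.tri x p q
        have h6 := h0.tri p q (y i)
        by_contra hcon
        apply h3
        omega
      have h3 : Av d q n q' b := (angle h0 h2 hq1 hq2 hb1 (hb2 i hi)).mono hn
      refine ih hi hj (hb3 q' hq1 (h3.symm h0.symm)) (by push_cast at hq; omega) fun z hz1 hz2 => ?_
      refine hz z ?_ hz2
      have h4 := h0.tri q q' z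
      have h5 := h0.tri q z p
      omega

/-- A tame centre of large depth allows only one index. -/
theorem no_pair (h0 : Hyp d (δ : ℤ)) {n : ℕ} (hn : 12 * δ + 2 ≤ n)
    {C : ℤ} {m : V} {r : ℤ} {f : V → ℤ} {x y : ℕ → V} {c : ℕ → ℤ}
    {I : Finset ℕ} (h : CD d C m r f x y c I) (hC : 0 ≤ C) {T : ℕ} (hT : C + 2 * δ + 2 ≤ T)
    (ht : Tm d n y c T I m) {i j : ℕ} (hi : i ∈ I) (hj : j ∈ I) (hij : i < j) : False := by
  have hδ := h0.delta_nonneg m
  obtain ⟨z, hz1, hz2⟩ := ht.far h0 T hi hj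
  -- the Gromov product of `x j` and `y i` is small
  have a1 := h0.tri (y i) z (y j)
  have a2 := h0.symm z (y i)
  have a3 := h0.four (x j) (y j) (y i) m
  have a4 := h.eq j hj
  have a5 := h.lo (x j)
  have a6 := h.le j hj m
  have a7 := h.hi m
  have a8 := h0.self m
  have a9 := h0.symm (y i) m
  have a10 := h0.symm (y j) m
  have a11 := h0.symm (x j) m
  have a13 := h0.symm (y j) (y i)
  have a12 : d m (x j) + d m (y i) - d (x j) (y i) ≤ 2 * C + δ := by omega
  -- a point of the geodesic near `m`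
  have b1 := h0.tri (x j) (y i) m
  have b2 := h0.tri m (x j) (y i)
  have b3 := h0.tri (x j) m (y i)
  obtain ⟨p0, hp1, hp2⟩ := h0.geo (x j) (y i) ((d m (x j) - d m (y i) + d (x j) (y i)) / 2)
    (by omega) (by omega)
  have b4 := h0.four m p0 (x j) (y i)
  have b5 := h0.symm p0 (x j)
  have hex : ∃ s : ℕ, s ≤ T ∧ ∃ p, d (x j) p + d p (y i) = d (x j) (y i) ∧ d m p = s := by
    refine ⟨(d m p0).toNat, ?_, p0, by omega, ?_⟩
    · have := h0.nonneg m p0
      omega
    · have := h0.nonneg m p0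
      omega
  classical
  obtain ⟨hs1, p, hp3, hp4⟩ := Nat.find_spec hex
  have h1 := ht.reach h0 hn (p := p) (x := x j) hp3 T hi hj (by omega) (fun z h2 h3 h4 => by
    have h5 : d z p ≠ 0 := fun h6 => h3 (h0.eq z p h6)
    have h6 := h0.nonneg z p
    have h7 := h0.nonneg m z
    refine Nat.find_min hex (m := (d m z).toNat) (by omega) ⟨by omega, z, h4, by omega⟩)
  have h2 := h.key h0 hi hj hij hp3
  omega

theorem card_lt (h0 : Hyp d (δ : ℤ)) {n M W : ℕ} (hn : 12 * δ + 2 ≤ n)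
    (hF : ∀ p a, d p a = 1 → ∃ s : Finset V, s.card ≤ M ∧ ∀ b, d p b = 1 → Av d p n a b → b ∈ s)
    {C : ℤ} {m : V} {r : ℤ} {f : V → ℤ} {x y : ℕ → V} {c : ℕ → ℤ}
    {I : Finset ℕ} (h : CD d C m r f x y c I) (hC : 0 ≤ C) {T : ℕ} (hT : C + 2 * δ + 2 ≤ T)
    (hW : 2 * (C + T) + 1 ≤ W) : I.card < need M W T 1 := by
  by_contra hcon
  rw [not_lt] at hcon
  obtain ⟨J, hJ1, hJ2, hJ3⟩ := tame h0 hn hF h hW T 1 I m (Finset.Subset.refl I)
    (by rw [h0.self]; omega) hcon
  obtain ⟨i, hi, j, hj, hij⟩ := Finset.one_lt_card.mp (show 1 < J.card by omega)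
  rcases lt_or_gt_of_ne hij with h1 | h1
  · exact no_pair h0 hn (h.mono hJ1) hC hT hJ3 hi hj h1
  · exact no_pair h0 hn (h.mono hJ1) hC hT hJ3 hj hi h1

/-- The chain bound. -/
theorem chain_fine (h : Hyp d (δ : ℤ)) (hF : ∀ n : ℕ, ∃ M : ℕ, ∀ p a, d p a = 1 →
    {b | d p b = 1 ∧ Av d p n a b}.encard ≤ M) :
    ∃ D : ℕ, ∀ (n : ℕ) (c : ℕ → V → ℤ), (∀ i, i ≤ n → IsHull d (c i)) →
      (∀ i, i < n → c i ≤ c (i + 1) ∧ c i ≠ c (i + 1)) → (∀ x, c n x ≤ c 0 x + 1) → n ≤ D := by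
  classical
  obtain ⟨M, hM⟩ := hF (12 * δ + 2)
  have hM' : ∀ p a, d p a = 1 → ∃ s : Finset V, s.card ≤ M ∧
      ∀ b, d p b = 1 → Av d p (12 * δ + 2) a b → b ∈ s := by
    intro p a hpa
    have h1 := hM p a hpa
    have h2 : {b | d p b = 1 ∧ Av d p (12 * δ + 2) a b}.Finite :=
      Set.finite_of_encard_le_coe h1
    refine ⟨h2.toFinset, ?_, fun b hb1 hb2 => h2.mem_toFinset.mpr ⟨hb1, hb2⟩⟩
    rw [h2.encard_eq_coe_toFinset_card] at h1
    exact_mod_cast h1
  refine ⟨need M (8 * δ + 9) (3 * δ + 3) 1, fun n c hc hlt hn => ?_⟩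
  by_contra hcon
  rw [not_le] at hcon
  have hmono : ∀ i j, i ≤ j → j ≤ n → ∀ x, c i x ≤ c j x := by
    intro i j hij
    induction j, hij using Nat.le_induction with
    | base => intro _ x; exact le_refl _
    | succ j hij ih => intro hj x; exact (ih (by omega) x).trans ((hlt j (by omega)).1 x)
  have hstep : ∀ i : ℕ, i < n → ∃ (x y : V) (k : ℤ), c i x = c 0 x ∧ d x y + k = c 0 x + 1 ∧
      ∀ z, d z y + k ≤ c (i + 1) z := by
    intro i hi
    obtain ⟨hle, hne⟩ := hlt i hi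
    have : ∃ x, c i x ≠ c (i + 1) x := by
      by_contra hcon
      push Not at hcon
      exact hne (funext hcon)
    obtain ⟨x, hx⟩ := this
    obtain ⟨s, hs1, hs2⟩ := hc (i + 1) hi
    obtain ⟨p, hp, hpx⟩ := hs2 x
    have h1 : c i x ≤ c (i + 1) x := hle x
    have h2 := hmono 0 i (Nat.zero_le i) hi.le x
    have h3 := hmono (i + 1) n hi le_rfl x
    have h4 := hn x
    exact ⟨x, p.1, p.2, by omega, by omega, fun z => hs1 z p hp⟩
  obtain ⟨x₀, -⟩ := hstep 0 (by omega)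
  have : Nonempty V := ⟨x₀⟩
  choose! x y k h1 h2 h3 using hstep
  obtain ⟨m, r, hmr⟩ := center h (hc 0 (Nat.zero_le n)) x₀
  have hCD : CD d (δ + 1) m r (c 0) x y k (Finset.range n) := by
    refine ⟨fun z => by have := hmr z; omega, fun z => by have := hmr z; omega,
      fun i hi => h2 i (Finset.mem_range.mp hi), fun i hi j hj hij => ?_, fun i hi z => ?_⟩
    · rw [Finset.mem_range] at hi hj
      have e1 := h3 i hi (x j)
      have e2 := hmono (i + 1) j hij hj.le (x j)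
      have e3 := h1 j hj
      omega
    · rw [Finset.mem_range] at hi
      have e1 := h3 i hi z
      have e2 := hmono (i + 1) n hi le_rfl z
      have e3 := hn z
      omega
  have h4 := card_lt h (n := 12 * δ + 2) (M := M) (W := 8 * δ + 9) le_rfl hM' hCD (by omega)
    (T := 3 * δ + 3) (by push_cast; omega) (by push_cast; omega)
  rw [Finset.card_range] at h4
  omega

end Pool.Agent.UPH
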