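import Pool.Agent.Lib.UPH.Angle

/-!
# The distance of a connected graph with the four point condition
-/

set_option autoImplicit false

namespace Pool.Agent.UPH

variable {V : Type} {Γ : SimpleGraph V}

theorem hyp_of_graph (hΓ : Γ.Connected) {δ : ℕ}
    (h4 : ∀ x y z w, Γ.dist x y + Γ.dist z w ≤
      max (Γ.dist x z + Γ.dist y w) (Γ.dist x w + Γ.dist y z) + δ) :
    Hyp (fun x y => (Γ.dist x y : ℤ)) δ where
  self x := by simp
  eq x y h := by
    have h1 : Γ.dist x y = 0 := by exact_mod_cast h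
    exact hΓ.dist_eq_zero_iff.1 h1
  symm x y := by
    rw [Γ.dist_comm]
  tri x y z := by
    exact_mod_cast hΓ.dist_triangle
  geo x y k hk hk' := by
    obtain ⟨p, hp⟩ := hΓ.exists_walk_length_eq_dist x y
    obtain ⟨k, rfl⟩ := Int.eq_ofNat_of_zero_le hk
    have hk2 : k ≤ Γ.dist x y := by exact_mod_cast hk'
    refine ⟨p.getVert k, ?_⟩
    have h1 : Γ.dist x (p.getVert k) ≤ k := by
      refine (Γ.dist_le (p.take k)).trans ?_
      rw [SimpleGraph.Walk.take_length]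
      exact min_le_left _ _
    have h2 : Γ.dist (p.getVert k) y ≤ Γ.dist x y - k := by
      refine (Γ.dist_le (p.drop k)).trans ?_
      rw [SimpleGraph.Walk.drop_length, hp]
    have h3 : Γ.dist x y ≤ Γ.dist x (p.getVert k) + Γ.dist (p.getVert k) y := hΓ.dist_triangle
    change (Γ.dist x (p.getVert k) : ℤ) = (k : ℤ) ∧
      (Γ.dist (p.getVert k) y : ℤ) = (Γ.dist x y : ℤ) - (k : ℤ)
    constructor <;> omega
  four x y z w := by
    have := h4 x y z w
    change (Γ.dist x y : ℤ) + (Γ.dist z w : ℤ) ≤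
      max ((Γ.dist x z : ℤ) + (Γ.dist y w : ℤ)) ((Γ.dist x w : ℤ) + (Γ.dist y z : ℤ)) + (δ : ℤ)
    exact_mod_cast this

theorem adj_iff_dist (x y : V) : (Γ.dist x y : ℤ) = 1 ↔ Γ.Adj x y := by
  rw [← Γ.dist_eq_one_iff_adj]
  norm_cast

theorem dist_smul {G : Type} [Group G] [MulAction G V] (hΓ : Γ.Connected)
    (hG : ∀ (g : G) (v w : V), Γ.Adj v w → Γ.Adj (g • v) (g • w)) (g : G) (x y : V) :
    Γ.dist (g • x) (g • y) = Γ.dist x y := by
  have key : ∀ (g : G) (x y : V), Γ.dist (g • x) (g • y) ≤ Γ.dist x y := by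
    intro g x y
    obtain ⟨p, hp⟩ := hΓ.exists_walk_length_eq_dist x y
    let φ : Γ →g Γ := ⟨fun v => g • v, fun {a b} h => hG g a b h⟩
    refine (Γ.dist_le (p.map φ)).trans ?_
    rw [SimpleGraph.Walk.length_map, hp]
  refine le_antisymm (key g x y) ?_
  have := key g⁻¹ (g • x) (g • y)
  rwa [inv_smul_smul, inv_smul_smul] at this

theorem av_walk {n : ℕ} {p a b : V}
    (h : Av (fun x y => (Γ.dist x y : ℤ)) p n a b) :
    ∃ w : Γ.Walk a b, w.length ≤ n ∧ p ∉ w.support := by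
  induction h with
  | refl ha => exact ⟨SimpleGraph.Walk.nil, by simp, by simpa using ha.symm⟩
  | step ha hab _ ih =>
    obtain ⟨w, h1, h2⟩ := ih
    refine ⟨SimpleGraph.Walk.cons ((adj_iff_dist _ _).1 hab) w, ?_, ?_⟩
    · rw [SimpleGraph.Walk.length_cons]
      omega
    · rw [SimpleGraph.Walk.support_cons, List.mem_cons, not_or]
      exact ⟨ha.symm, h2⟩

/-- The uniformly fine graphs. -/
theorem fine_of_graph
    (hF : ∀ n : ℕ, ∃ M : ℕ, ∀ p a : V, Γ.Adj p a →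
      {b | Γ.Adj p b ∧ ∃ w : Γ.Walk a b, w.length ≤ n ∧ p ∉ w.support}.encard ≤ M) :
    ∀ n : ℕ, ∃ M : ℕ, ∀ p a : V, (fun x y => (Γ.dist x y : ℤ)) p a = 1 →
      {b | (fun x y => (Γ.dist x y : ℤ)) p b = 1 ∧
        Av (fun x y => (Γ.dist x y : ℤ)) p n a b}.encard ≤ M := by
  intro n
  obtain ⟨M, hM⟩ := hF n
  refine ⟨M, fun p a ha => (Set.encard_le_encard ?_).trans (hM p a ((adj_iff_dist _ _).1 ha))⟩
  intro b hb
  exact ⟨(adj_iff_dist _ _).1 hb.1, av_walk hb.2⟩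

end Pool.Agent.UPH
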