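import Pool.Agent.Lib.UPH.Defs

/-!
# The angle lemma

If `p` is not on a geodesic from `x` to `y`, then the first vertices of the geodesics from `p` to
`x` and from `p` to `y` are joined by a walk of length at most `12 δ + 2` which avoids `p`.
-/

set_option autoImplicit false

namespace Pool.Agent.UPH

variable {V : Type} {d : V → V → ℤ}

/-- `Av d p n a b`: there is a walk of length at most `n` from `a` to `b` which avoids `p`. -/
inductive Av (d : V → V → ℤ) (p : V) : ℕ → V → V → Prop
  | refl {n : ℕ} {a : V} (ha : a ≠ p) : Av d p n a a
  | step {n : ℕ} {a b c : V} (ha : a ≠ p) (hab : d a b = 1) (hbc : Av d p n b c) :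
      Av d p (n + 1) a c

namespace Av

variable {p a b c : V} {n m : ℕ}

theorem left (h : Av d p n a b) : a ≠ p := by cases h <;> assumption

theorem right (h : Av d p n a b) : b ≠ p := by
  induction h with
  | refl ha => exact ha
  | step ha hab hbc ih => exact ih

theorem mono (h : Av d p n a b) (hnm : n ≤ m) : Av d p m a b := by
  induction h generalizing m with
  | refl ha => exact .refl ha
  | step ha hab hbc ih =>
    obtain ⟨k, rfl⟩ : ∃ k, m = k + 1 := ⟨m - 1, by omega⟩
    exact .step ha hab (ih (by omega))

theorem trans (h : Av d p n a b) (h' : Av d p m b c) : Av d p (n + m) a c := by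
  induction h with
  | refl ha => exact h'.mono (by omega)
  | @step n a b c ha hab hbc ih =>
    have : n + 1 + m = (n + m) + 1 := by omega
    rw [this]
    exact .step ha hab (ih h')

theorem symm (hd : ∀ x y, d x y = d y x) (h : Av d p n a b) : Av d p n b a := by
  induction h with
  | refl ha => exact .refl ha
  | step ha hab hbc ih => exact ih.trans (.step hbc.left ((hd _ _).trans hab) (.refl ha))

end Av

/-- A geodesic between two points which does not pass through `p`. -/
theorem Hyp.av {δ : ℤ} (h : Hyp d δ) (p : V) : ∀ (n : ℕ) (u v : V), d u v = n →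
    d u v < d u p + d p v → Av d p n u v := by
  intro n
  induction n with
  | zero =>
    intro u v huv hlt
    have h1 := h.eq u v (by simpa using huv)
    subst h1
    refine .refl ?_
    rintro rfl
    have h2 := h.self u
    omega
  | succ n ih =>
    intro u v huv hlt
    obtain ⟨z, hz1, hz2⟩ := h.geo u v 1 (by omega) (by omega)
    have h1 := h.tri u z p
    refine .step ?_ hz1 (ih z v (by omega) (by omega))
    rintro rfl
    have h2 := h.self u
    omega

/-- The geodesic version with a bound on the length. -/
theorem Hyp.av_le {δ : ℤ} (h : Hyp d δ) {p u v : V} {n : ℕ} (huv : d u v ≤ n)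
    (hlt : d u v < d u p + d p v) : Av d p n u v := by
  have h0 := h.nonneg u v
  exact (h.av p (d u v).toNat u v (by omega) hlt).mono (by omega)

/-- From the first vertex of the geodesic from `p` to `x` to the geodesic from `x` to `y`. -/
theorem angle_end {δ : ℕ} (h : Hyp d δ) {p x y a z : V}
    (hg : d p x + d p y - d x y < 2 * (2 * δ + 1)) (ha : d p a = 1) (hax : d a x = d p x - 1)
    (hz : d x z + d z y = d x y)
    (hz' : d x z = max 0 (d p x - (2 * δ + 1))) : Av d p (4 * δ) a z := by
  have s1 := h.symm p a
  have s2 := h.symm x z
  have s3 := h.symm p x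
  rcases le_or_gt (d p x) (2 * δ + 1) with c | c
  · rw [max_eq_left (by omega)] at hz'
    have h1 := h.eq x z hz'
    subst h1
    have h2 := h.nonneg a x
    exact h.av_le (by push_cast; omega) (by omega)
  · rw [max_eq_right (by omega)] at hz'
    obtain ⟨w, hw1, hw2⟩ := h.geo a x (2 * δ) (by omega) (by omega)
    have t1 := h.tri p a w
    have t2 := h.tri p w x
    have s4 := h.symm w x
    have s5 := h.symm w p
    have s6 := h.symm y x
    have s7 := h.symm y p
    have s8 := h.symm z x
    have q1 := h.four' w y p x
    have q2 := h.four' w z y x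
    have hwz : d w z ≤ 2 * δ := by omega
    have n1 := h.nonneg p z
    have a1 : Av d p (2 * δ) a w := h.av_le (by push_cast; omega) (by omega)
    have a2 : Av d p (2 * δ) w z := h.av_le (by push_cast; omega) (by omega)
    exact (a1.trans a2).mono (by omega)

/-- The angle lemma. -/
theorem angle {δ : ℕ} (h : Hyp d δ) {p x y a b : V} (hp : d x y < d x p + d p y)
    (ha : d p a = 1) (hax : d a x = d p x - 1) (hb : d p b = 1) (hby : d b y = d p y - 1) :
    Av d p (12 * δ + 2) a b := by
  have s1 := h.symm p a
  have s2 := h.symm p b
  have s3 := h.symm p x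
  have s4 := h.symm p y
  have s5 := h.symm x y
  have t1 := h.tri x p y
  have t2 := h.tri p x y
  have t3 := h.tri p y x
  have n1 := h.nonneg x y
  rcases le_or_gt (2 * (2 * (δ : ℤ) + 1)) (d p x + d p y - d x y) with c | c
  · -- the two geodesics stay together up to distance `2 δ + 1`
    obtain ⟨v, hv1, hv2⟩ := h.geo a x (2 * δ) (by omega) (by omega)
    obtain ⟨w, hw1, hw2⟩ := h.geo b y (2 * δ) (by omega) (by omega)
    have u1 := h.tri p a v
    have u2 := h.tri p v x
    have u3 := h.tri p b w
    have u4 := h.tri p w y
    have r1 := h.symm v p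
    have r2 := h.symm w p
    have r3 := h.symm v x
    have r4 := h.symm w y
    have q1 := h.four' v y x p
    have q2 := h.four' v w y p
    have hvw : d v w ≤ 2 * δ := by omega
    have a1 : Av d p (2 * δ) a v := h.av_le (by push_cast; omega) (by omega)
    have a2 : Av d p (2 * δ) v w := h.av_le (by push_cast; omega) (by omega)
    have a3 : Av d p (2 * δ) b w := h.av_le (by push_cast; omega) (by omega)
    exact ((a1.trans a2).trans (a3.symm h.symm)).mono (by omega)
  · obtain ⟨z, hz1, hz2⟩ := h.geo x y (max 0 (d p x - (2 * δ + 1))) (le_max_left _ _) (by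
      rcases le_or_gt (d p x) (2 * δ + 1) with c' | c'
      · rw [max_eq_left (by omega)]; omega
      · rw [max_eq_right (by omega)]; omega)
    have hmz : d z y ≥ max 0 (d p y - (2 * δ + 1)) := by
      rcases le_or_gt (d p x) (2 * δ + 1) with c' | c'
      · rw [max_eq_left (by omega)] at hz1 hz2
        rcases le_or_gt (d p y) (2 * δ + 1) with c'' | c''
        · rw [max_eq_left (by omega)]; omega
        · rw [max_eq_right (by omega)]; omega
      · rw [max_eq_right (by omega)] at hz1 hz2
        rcases le_or_gt (d p y) (2 * δ + 1) with c'' | c''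
        · rw [max_eq_left (by omega)]; omega
        · rw [max_eq_right (by omega)]; omega
    obtain ⟨w, hw1, hw2⟩ := h.geo y z (max 0 (d p y - (2 * δ + 1))) (le_max_left _ _) (by
      rw [h.symm y z]; exact hmz)
    have r1 := h.symm w z
    have r2 := h.symm y z
    have r3 := h.symm y w
    have r4 := h.symm z w
    have v1 := h.tri x z p
    have v2 := h.tri p w y
    have v3 := h.tri x z w
    have v4 := h.tri x w y
    have v5 := h.symm w x
    have v6 := h.symm p w
    have v7 := h.symm p z
    have a1 := angle_end h (z := z) c ha hax (by omega) hz1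
    have a3 := angle_end h (p := p) (x := y) (y := x) (z := w) (by omega) hb hby (by omega)
      hw1
    have hlen : d z w ≤ 4 * δ + 2 := by
      rcases le_or_gt (d p x) (2 * δ + 1) with c' | c'
      · rw [max_eq_left (by omega)] at hz1 hz2
        rcases le_or_gt (d p y) (2 * δ + 1) with c'' | c''
        · rw [max_eq_left (by omega)] at hw1 hw2; omega
        · rw [max_eq_right (by omega)] at hw1 hw2; omega
      · rw [max_eq_right (by omega)] at hz1 hz2
        rcases le_or_gt (d p y) (2 * δ + 1) with c'' | c''
        · rw [max_eq_left (by omega)] at hw1 hw2; omega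
        · rw [max_eq_right (by omega)] at hw1 hw2; omega
    have a2 : Av d p (4 * δ + 2) z w := h.av_le (by push_cast; omega) (by omega)
    exact ((a1.trans a2).trans (a3.symm h.symm)).mono (by omega)

end Pool.Agent.UPH
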