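import Pool.Agent.Lib.UPH.Stab
import Pool.Agent.Lib.UPH.Angle

/-!
# Uniformly fine hyperbolic graphs: minima and stabilizers, final forms
-/

set_option autoImplicit false

namespace Pool.Agent.UPH

variable {V : Type} {d : V → V → ℤ} {δ : ℕ}

/-- the relation of small angles satisfies the axioms used in `Stab` -/
theorem exists_rel (h : Hyp d (δ : ℤ))
    (hF : ∀ n : ℕ, ∃ M : ℕ, ∀ p a, d p a = 1 → {b | d p b = 1 ∧ Av d p n a b}.encard ≤ M) :
    ∃ M : ℕ, Rel d (fun p a b => Av d p (12 * δ + 2) a b)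
      (fun p a b => Av d p ((12 * δ + 2) + (12 * δ + 2)) a b) M := by
  obtain ⟨M₁, h1⟩ := hF (12 * δ + 2)
  obtain ⟨M₂, h2⟩ := hF ((12 * δ + 2) + (12 * δ + 2))
  refine ⟨M₁ + M₂, fun p a b c hac hbc => hac.trans (hbc.symm h.symm),
    fun p x y a b hp ha hax hb hby => angle h hp ha hax hb hby, fun p a ha => ?_, fun p a ha => ?_⟩
  · refine (h1 p a ha).trans ?_
    push_cast
    exact le_self_add
  · refine (h2 p a ha).trans ?_
    push_cast
    exact le_add_self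

/-- the number of the minima of a hull function is bounded -/
theorem minFine [Nonempty V] (h : Hyp d (δ : ℤ))
    (hF : ∀ n : ℕ, ∃ M : ℕ, ∀ p a, d p a = 1 → {b | d p b = 1 ∧ Av d p n a b}.encard ≤ M) :
    ∃ K : ℕ, ∀ f, IsHull d f →
      ∃ s : Finset V, s.Nonempty ∧ s.card ≤ K ∧ ∀ w, w ∈ s ↔ ∀ x, f w ≤ f x := by
  obtain ⟨M, hM⟩ := exists_rel h hF
  obtain ⟨x₀⟩ := ‹Nonempty V›
  exact argmin_bound h hM x₀

/-- groups which fix a hull function or two vertices -/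
theorem stabFine {G : Type} [Group G] [MulAction G V] [Nonempty V] (h : Hyp d (δ : ℤ))
    (hF : ∀ n : ℕ, ∃ M : ℕ, ∀ p a, d p a = 1 → {b | d p b = 1 ∧ Av d p n a b}.encard ≤ M)
    (hG : ∀ (g : G) (x y : V), d (g • x) (g • y) = d x y) (N : ℕ) : ∃ B : ℕ, ∀ J : Subgroup G,
    (∀ a b : V, d a b = 1 → {j | j ∈ J ∧ j • a = a ∧ j • b = b}.encard ≤ N) →
    (∀ f, IsHull d f → (∀ j ∈ J, ∀ x, f (j • x) = f x) →
      (J : Set G).encard ≤ B ∨ ∃ z c, ∀ x, f x = d x z + c) ∧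
    (∀ z z' : V, z ≠ z' → (∀ j ∈ J, j • z = z ∧ j • z' = z') → (J : Set G).encard ≤ B) := by
  obtain ⟨M, hM⟩ := exists_rel h hF
  obtain ⟨x₀⟩ := ‹Nonempty V›
  exact stab_bound h hM x₀ hG N

end Pool.Agent.UPH
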