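import Pool.Agent.Lib.UPH.AllFJ
import Pool.Agent.Lib.UPH.Graph
import Pool.Agent.Lib.UPH.Fine
import Pool.Agent.Lib.UPH.StabF

/-!
# Groups acting on a semilattice with a shift and on finitely many uniformly fine hyperbolic graphs
-/

set_option autoImplicit false

namespace Pool.Agent.UPH

open Pool.Agent.FJ Pool.Agent.GLN Pool.Agent.LSH Subgroup.Commensurable

theorem main_all {P : ∀ (G : Type) [Group G], Prop} (hP : IsFJClassT P)
    {G L ι Q : Type} [Group G] [Group Q] [SemilatticeSup L] [Nonempty L] [Finite ι]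
    (φ : L ≃o L) (hlt : ∀ x, x < φ x) (hcof : ∀ x y, ∃ n : ℕ, y ≤ (φ ^ n) x) (d₀ : ℕ)
    (hd₀ : ∀ (m : ℕ) (c : ℕ → L), (∀ i < m, c i < c (i + 1)) → c m ≤ φ (c 0) → m ≤ d₀)
    {V : ι → Type} (Γ : ∀ i, SimpleGraph (V i)) (hΓ : ∀ i, (Γ i).Connected) (δ : ι → ℕ)
    (h4 : ∀ i x y z w, (Γ i).dist x y + (Γ i).dist z w ≤
      max ((Γ i).dist x z + (Γ i).dist y w) ((Γ i).dist x w + (Γ i).dist y z) + δ i)
    (hF : ∀ i, ∀ n : ℕ, ∃ M : ℕ, ∀ p a : V i, (Γ i).Adj p a →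
      {b | (Γ i).Adj p b ∧ ∃ w : (Γ i).Walk a b, w.length ≤ n ∧ p ∉ w.support}.encard ≤ M)
    [MulAction G L] (hmono : ∀ (g : G) (x y : L), x ≤ y → g • x ≤ g • y)
    (hφ : ∀ (g : G) (x : L), g • φ x = φ (g • x))
    [∀ i, MulAction G (V i)]
    (hG : ∀ i, ∀ (g : G) (v w : V i), (Γ i).Adj v w → (Γ i).Adj (g • v) (g • w))
    (f : G →* Q) (hQ : P Q) (k l N : ℕ)
    (hv : ∀ (x : L) (v : ∀ i, V i) (q : Q),
      P (MulAction.stabilizer G x ⊓ MulAction.stabilizer G v ⊓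
        (Subgroup.zpowers q).comap f : Subgroup G))
    (hN : ∀ (x : L) (v : ∀ i, V i) (i : ι) (w : V i), (Γ i).Adj (v i) w →
      {g | g ∈ f.ker ∧ g • x = x ∧ (∀ j, g • v j = v j) ∧ g • w = w}.encard ≤ N)
    (hchain : ∀ (v : ∀ i, V i) (A : ℕ → Set L), (∀ i, (A i).Finite) → (∀ i, A i ⊆ A (i + 1)) →
      (∃ x ∈ A 0, ∃ y ∈ A 0, Nonempty ι ∨ ¬ y ≤ (φ ^ k) x) →
      ∃ i < l, fixingSubgroup G (A i) ⊓ MulAction.stabilizer G v ⊓ f.ker =
          fixingSubgroup G (A (i + 1)) ⊓ MulAction.stabilizer G v ⊓ f.ker ∨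
        Subgroup.Commensurable (fixingSubgroup G (A i) ⊓ MulAction.stabilizer G v ⊓ f.ker)
          (fixingSubgroup G (A (i + 1)) ⊓ MulAction.stabilizer G v ⊓ f.ker) ∧
        ∀ q : Q, P (commensurator (fixingSubgroup G (A i) ⊓ MulAction.stabilizer G v ⊓ f.ker) ⊓
          (Subgroup.zpowers q).comap f : Subgroup G))
    (hnorm : ∀ (v : ∀ i, V i) (A : Set L), A.Finite →
      (∃ x ∈ A, ∃ y ∈ A, Nonempty ι ∨ ¬ y ≤ (φ ^ k) x) → ∀ t ∈ MulAction.stabilizer G v,
      (∀ j, j ∈ fixingSubgroup G A ⊓ MulAction.stabilizer G v ⊓ f.ker ↔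
        t * j * t⁻¹ ∈ fixingSubgroup G A ⊓ MulAction.stabilizer G v ⊓ f.ker) →
      P ((fixingSubgroup G A ⊓ MulAction.stabilizer G v ⊓ f.ker) ⊔
        Subgroup.zpowers t : Subgroup G)) : P G := by
  classical
  have _ : Fintype ι := Fintype.ofFinite ι
  have hne : ∀ i, Nonempty (V i) := fun i => (hΓ i).nonempty
  have h := fun i => hyp_of_graph (hΓ i) (h4 i)
  have hF' := fun i => fine_of_graph (hF i)
  have hd : ∀ i, ∀ (g : G) (x y : V i), (fun x y => ((Γ i).dist x y : ℤ)) (g • x) (g • y) =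
      (fun x y => ((Γ i).dist x y : ℤ)) x y := by
    intro i g x y
    change ((Γ i).dist (g • x) (g • y) : ℤ) = ((Γ i).dist x y : ℤ)
    rw [dist_smul (hΓ i) (hG i)]
  have hD := fun i => chain_fine (h i) (hF' i)
  choose D hD using hD
  have hK := fun i => minFine (h i) (hF' i)
  choose K hK using hK
  have hB := fun i => stabFine (G := G) (h i) (hF' i) (hd i) N
  choose B hB using hB
  refine mem_of_hull_all hP φ hlt hcof d₀ hd₀ hmono hφ h hd f hQ D hD (∑ i, K i)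
    (fun i t ht => ?_) (∑ i, B i) (fun i H hH hHx hHv => ?_) k l hv hchain hnorm
  · obtain ⟨s, h1, h2, h3⟩ := hK i t ht
    exact ⟨s, h1, h2.trans (Finset.single_le_sum (fun j _ => Nat.zero_le _) (Finset.mem_univ i)),
      h3⟩
  · obtain ⟨v, hv'⟩ := hHv
    obtain ⟨x, hx⟩ := hHx
    have hle : ((B i : ℕ) : ℕ∞) ≤ (∑ i, B i : ℕ) := by
      exact_mod_cast Finset.single_le_sum (f := B) (fun j _ => Nat.zero_le _) (Finset.mem_univ i)
    obtain ⟨h1, h2⟩ := hB i H fun a b hab => by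
      have h5 := hN x (Function.update v i a) i b (by
        rw [Function.update_self]
        exact (adj_iff_dist _ _).1 hab)
      refine (Set.encard_le_encard ?_).trans h5
      rintro g ⟨hg1, hg2, hg3⟩
      refine ⟨hH hg1, hx g hg1, fun j => ?_, hg3⟩
      by_cases hj : j = i
      · subst hj
        rw [Function.update_self]
        exact hg2
      · rw [Function.update_of_ne hj]
        exact hv' g hg1 j hj
    exact ⟨fun f hf hfH => (h1 f hf hfH).imp_left fun h6 => h6.trans hle,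
      fun z z' hz hzz => (h2 z z' hz hzz).trans hle⟩

end Pool.Agent.UPH
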