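import Pool.Agent.Lib.UPH.Defs

/-!
# Finite maxima of functions `d(·, y) + c` on a hyperbolic graph of bounded geometry

`chain`: the chains of such functions from `f` to `f + 1` have bounded length.
-/

set_option autoImplicit false

namespace Pool.Agent.UPH

variable {V : Type} {d : V → V → ℤ} {δ : ℤ}

/-- Two generators with equal profiles on the ball `B(m, 4 δ + 1)`. -/
theorem profile (h : Hyp d δ) {m x y y' : V}
    (hx : d x m + d m y' ≤ d x y' + 2 * δ + 1)
    (hp : ∀ u, d m u ≤ 4 * δ + 1 → d u y - d m y = d u y' - d m y') :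
    d x y' - d m y' + d m y ≤ d x y := by
  have hδ := h.delta_nonneg m
  have n1 := h.nonneg m y
  have n2 := h.nonneg m y'
  by_cases c1 : d m y ≤ 4 * δ + 1
  · -- `y` is in the ball
    have h1 := hp y c1
    have h2 := h.self y
    have h3 := h.tri x y y'
    omega
  · by_cases c2 : d m y' ≤ 4 * δ
    · -- impossible: `y'` is in the ball, `y` is not
      exfalso
      have h1 := hp y' (by omega)
      have h2 := h.self y'
      have h3 := h.symm y y'
      obtain ⟨u, hu1, hu2⟩ := h.geo y' y 1 (by omega) (by omega)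
      have h4 := h.tri m y' u
      have h5 := hp u (by omega)
      have h6 := h.symm u y'
      have h7 := h.nonneg u y'
      have h8 := h.symm y' y
      omega
    · obtain ⟨u, hu1, hu2⟩ := h.geo m y' (4 * δ + 1) (by omega) (by omega)
      have h1 := hp u (by omega)
      have h2 := h.tri y u y'
      have h3 := h.symm y u
      have h4 := h.four' x y' y m
      have h5 := h.symm y' m
      have h6 := h.symm y m
      have h7 := h.symm y y'
      -- a point of the geodesic from `x` to `y` near `m`
      have key : d x m + d m y ≤ d x y + 3 * δ + 1 := by omega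
      by_cases c3 : d x m ≤ d x y
      · obtain ⟨v, hv1, hv2⟩ := h.geo x y (d x m) (h.nonneg x m) c3
        have h8 := h.four' v m x y
        have h9 := h.symm v x
        have h10 := h.symm m v
        have h11 := h.symm m x
        have h12 := hp v (by omega)
        have h13 := h.tri x v y'
        omega
      · exfalso
        omega

/-- The chains from `c 0` to `c 0 + 1` have bounded length. -/
theorem chain [Nonempty V] (h : Hyp d δ) (N : ℕ)
    (hN : ∀ m, ∃ s : Finset V, s.card ≤ N ∧ ∀ x, d m x ≤ 4 * δ + 1 → x ∈ s) :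
    ∀ (n : ℕ) (c : ℕ → V → ℤ), (∀ i, i ≤ n → IsHull d (c i)) →
      (∀ i, i < n → c i ≤ c (i + 1) ∧ c i ≠ c (i + 1)) → (∀ x, c n x ≤ c 0 x + 1) →
      (n : ℤ) ≤ (2 * δ + 2) * (8 * δ + 3) ^ N := by
  classical
  intro n c hc hlt hn
  have x₀ : V := Classical.arbitrary V
  have hδ := h.delta_nonneg x₀
  obtain ⟨m, r, hmr⟩ := center h (hc 0 (Nat.zero_le n)) x₀
  have hmono : ∀ i j, i ≤ j → j ≤ n → ∀ x, c i x ≤ c j x := by
    intro i j hij
    induction j, hij using Nat.le_induction with
    | base => intro _ x; exact le_refl _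
    | succ j hij ih => intro hj x; exact (ih (by omega) x).trans ((hlt j (by omega)).1 x)
  have hstep : ∀ i : ℕ, i < n → ∃ (x y : V) (k : ℤ), c i x = c 0 x ∧ d x y + k = c 0 x + 1 ∧
      ∀ z, d z y + k ≤ c (i + 1) z := by
    intro i hi
    obtain ⟨hle, hne⟩ := hlt i hi
    have : ∃ x, c i x ≠ c (i + 1) x := by
      by_contra hcon
      push Not at hcon
      exact hne (funext hcon)
    obtain ⟨x, hx⟩ := this
    obtain ⟨s, hs1, hs2⟩ := hc (i + 1) hi
    obtain ⟨p, hp, hpx⟩ := hs2 x
    have h1 : c i x ≤ c (i + 1) x := hle x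
    have h2 := hmono 0 i (Nat.zero_le i) hi.le x
    have h3 := hmono (i + 1) n hi le_rfl x
    have h4 := hn x
    exact ⟨x, p.1, p.2, by omega, by omega, fun z => hs1 z p hp⟩
  choose! x y k h1 h2 h3 using hstep
  obtain ⟨s, hs, hsm⟩ := hN m
  set t : Finset V := s.filter (fun u => d m u ≤ 4 * δ + 1) with ht
  have htc : t.card ≤ N := (Finset.card_filter_le _ _).trans hs
  have hk : ∀ i, i < n → r + 1 - δ ≤ k i + d m (y i) ∧ k i + d m (y i) ≤ r + δ + 2 ∧
      d (x i) m + d m (y i) ≤ d (x i) (y i) + 2 * δ + 1 := by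
    intro i hi
    have e1 := h2 i hi
    have e2 := h3 i hi m
    have e3 := hmono (i + 1) n hi le_rfl m
    have e4 := hn m
    have e5 := hmr m
    have e6 := hmr (x i)
    have e7 := h.tri (x i) m (y i)
    have e8 := h.self m
    refine ⟨by omega, by omega, by omega⟩
  have key : ∀ i j, i < j → j < n → k i + d m (y i) = k j + d m (y j) →
      (∀ u ∈ t, d u (y i) - d m (y i) = d u (y j) - d m (y j)) → False := by
    intro i j hij hj hkk hpp
    have e1 := profile h (hk j hj).2.2 (y := y i) (fun u hu => hpp u (by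
      rw [ht, Finset.mem_filter]
      exact ⟨hsm u hu, hu⟩))
    have e2 := h3 i (by omega) (x j)
    have e3 := hmono (i + 1) j hij hj.le (x j)
    have e4 := h1 j hj
    have e5 := h2 j hj
    omega
  have hcard : (Finset.range n).card ≤
      (Finset.Icc (r + 1 - δ) (r + δ + 2) ×ˢ
        Fintype.piFinset (fun _ : t => Finset.Icc (-(4 * δ + 1)) (4 * δ + 1))).card := by
    refine Finset.card_le_card_of_injOn
      (fun i => (k i + d m (y i), fun u : t => d u.1 (y i) - d m (y i))) ?_ ?_
    · intro i hi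
      have hi' : i < n := Finset.mem_range.1 hi
      have e1 := hk i hi'
      refine Finset.mem_coe.2 (Finset.mem_product.2 ⟨Finset.mem_Icc.2 ⟨e1.1, e1.2.1⟩, ?_⟩)
      refine Fintype.mem_piFinset.2 fun u => Finset.mem_Icc.2 ?_
      show -(4 * δ + 1) ≤ d u.1 (y i) - d m (y i) ∧ d u.1 (y i) - d m (y i) ≤ 4 * δ + 1
      have e2 : d m u.1 ≤ 4 * δ + 1 :=
        (Finset.mem_filter.1 (show u.1 ∈ s.filter (fun u => d m u ≤ 4 * δ + 1) from u.2)).2
      have e3 := h.tri u.1 m (y i)
      have e4 := h.tri m u.1 (y i)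
      have e5 := h.symm m u.1
      exact ⟨by omega, by omega⟩
    · intro i hi j hj hij
      have hi' : i < n := Finset.mem_range.1 hi
      have hj' : j < n := Finset.mem_range.1 hj
      have e1 : k i + d m (y i) = k j + d m (y j) := congrArg Prod.fst hij
      have e2 : ∀ u ∈ t, d u (y i) - d m (y i) = d u (y j) - d m (y j) := fun u hu =>
        congrFun (congrArg Prod.snd hij) (⟨u, hu⟩ : t)
      rcases lt_trichotomy i j with hlt' | heq | hlt'
      · exact (key i j hlt' hj' e1 e2).elim
      · exact heq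
      · exact (key j i hlt' hi' e1.symm (fun u hu => (e2 u hu).symm)).elim
  rw [Finset.card_range, Finset.card_product, Fintype.card_piFinset] at hcard
  simp only [Int.card_Icc, Finset.prod_const, Finset.card_univ, Fintype.card_coe] at hcard
  have q1 : r + δ + 2 + 1 - (r + 1 - δ) = 2 * δ + 2 := by ring
  have q2 : 4 * δ + 1 + 1 - -(4 * δ + 1) = 8 * δ + 3 := by ring
  rw [q1, q2] at hcard
  have q3 : (n : ℤ) ≤ ((2 * δ + 2).toNat * (8 * δ + 3).toNat ^ t.card : ℕ) := by exact_mod_cast hcard
  refine q3.trans ?_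
  rw [Nat.cast_mul, Nat.cast_pow, Int.toNat_of_nonneg (by omega), Int.toNat_of_nonneg (by omega)]
  exact mul_le_mul_of_nonneg_left (pow_le_pow_right₀ (by omega) htc) (by omega)

end Pool.Agent.UPH
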