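import Mathlib

/-!
# Finite maxima of functions `d(·, y) + c` on a hyperbolic graph

`center`: such a function is `r + d(·, m)` up to a bounded error.
-/

set_option autoImplicit false

namespace Pool.Agent.UPH

/-- An integer valued metric with geodesics and the four point condition. -/
structure Hyp {V : Type} (d : V → V → ℤ) (δ : ℤ) : Prop where
  self : ∀ x, d x x = 0
  eq : ∀ x y, d x y = 0 → x = y
  symm : ∀ x y, d x y = d y x
  tri : ∀ x y z, d x z ≤ d x y + d y z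
  geo : ∀ x y (k : ℤ), 0 ≤ k → k ≤ d x y → ∃ z, d x z = k ∧ d z y = d x y - k
  four : ∀ x y z w, d x y + d z w ≤ max (d x z + d y w) (d x w + d y z) + δ

/-- Finite maxima of functions `d(·, y) + c`. -/
def IsHull {V : Type} (d : V → V → ℤ) (f : V → ℤ) : Prop :=
  ∃ s : Finset (V × ℤ), (∀ x, ∀ p ∈ s, d x p.1 + p.2 ≤ f x) ∧ ∀ x, ∃ p ∈ s, f x = d x p.1 + p.2

variable {V : Type} {d : V → V → ℤ} {δ : ℤ}

theorem Hyp.four' (h : Hyp d δ) (x y z w : V) :
    d x y + d z w ≤ d x z + d y w + δ ∨ d x y + d z w ≤ d x w + d y z + δ := by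
  have := h.four x y z w
  rcases le_total (d x z + d y w) (d x w + d y z) with h1 | h1
  · rw [max_eq_right h1] at this; exact Or.inr this
  · rw [max_eq_left h1] at this; exact Or.inl this

theorem Hyp.nonneg (h : Hyp d δ) (x y : V) : 0 ≤ d x y := by
  have h1 := h.tri x y x
  have h2 := h.self x
  have h3 := h.symm x y
  omega

theorem Hyp.delta_nonneg (h : Hyp d δ) (x : V) : 0 ≤ δ := by
  have h1 := h.four' x x x x
  have h2 := h.self x
  omega

theorem center (h : Hyp d δ) {f : V → ℤ} (hf : IsHull d f) (x₀ : V) :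
    ∃ (m : V) (r : ℤ), ∀ x, r + d x m - δ ≤ f x ∧ f x ≤ r + d x m + δ + 1 := by
  obtain ⟨s, hs1, hs2⟩ := hf
  obtain ⟨p₀, hp₀, -⟩ := hs2 x₀
  have hne : (s ×ˢ s).Nonempty := ⟨(p₀, p₀), Finset.mk_mem_product hp₀ hp₀⟩
  obtain ⟨⟨a, b⟩, hab, hmax⟩ := Finset.exists_max_image (s ×ˢ s)
    (fun q : (V × ℤ) × (V × ℤ) => d q.1.1 q.2.1 + q.1.2 + q.2.2) hne
  rw [Finset.mem_product] at hab
  have hM : ∀ p ∈ s, ∀ q ∈ s, d p.1 q.1 + p.2 + q.2 ≤ d a.1 b.1 + a.2 + b.2 := fun p hp q hq =>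
    hmax (p, q) (Finset.mk_mem_product hp hq)
  have haa := hM a hab.1 a hab.1
  have hbb := hM b hab.2 b hab.2
  have h1 := h.self a.1
  have h2 := h.self b.1
  obtain ⟨m, hm1, hm2⟩ := h.geo a.1 b.1 ((d a.1 b.1 + a.2 + b.2) / 2 - a.2) (by omega) (by omega)
  refine ⟨m, (d a.1 b.1 + a.2 + b.2) / 2, fun x => ⟨?_, ?_⟩⟩
  · have h3 := hs1 x a hab.1
    have h4 := hs1 x b hab.2
    have h5 := h.four' x m a.1 b.1
    have h6 := h.symm a.1 m
    omega
  · obtain ⟨q, hq, hx⟩ := hs2 x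
    have h3 := hM q hq a hab.1
    have h4 := hM q hq b hab.2
    have h5 := h.four' q.1 m a.1 b.1
    have h6 := h.symm a.1 m
    have h7 := h.tri x m q.1
    have h8 := h.symm m q.1
    omega

end Pool.Agent.UPH
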