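import Pool.Agent.Lib.UPH.Grp
import Pool.Agent.Lib.LSH.Rel

/-!
# Groups acting on hyperbolic graphs: the group side
-/

set_option autoImplicit false

namespace Pool.Agent.UPH

open Pool.Agent.FJ Pool.Agent.GLN Pool.Agent.LSH

/-- The lattice of the finite maxima of functions `d (·, y) + c` with the shift, provided that its
chains from `f` to `f + 1` are bounded, and the theorem on groups acting on semilattices with a
shift. -/
theorem mem_of_hull {P : ∀ (G : Type) [Group G], Prop} (hP : IsFJClassT P)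
    {G V Q : Type} [Group G] [Group Q] [MulAction G V] [Nonempty V] {d : V → V → ℤ} {δ : ℤ}
    (h : Hyp d δ) (hd : ∀ (g : G) (x y : V), d (g • x) (g • y) = d x y)
    (f : G →* Q) (hQ : P Q)
    (D : ℕ) (hch : ∀ (n : ℕ) (c : ℕ → V → ℤ), (∀ i, i ≤ n → IsHull d (c i)) →
      (∀ i, i < n → c i ≤ c (i + 1) ∧ c i ≠ c (i + 1)) → (∀ x, c n x ≤ c 0 x + 1) → n ≤ D)
    (hS1 : ∀ f : V → ℤ, IsHull d f → ∃ s : Finset V, s.Nonempty ∧ ∀ w, w ∈ s ↔ ∀ x, f w ≤ f x)
    (B : ℕ) (hR : ∀ J : Subgroup G, J ≤ f.ker →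
      (∀ f : V → ℤ, IsHull d f → (∀ j ∈ J, ∀ x, f (j • x) = f x) →
        (J : Set G).encard ≤ B ∨ ∃ z c, ∀ x, f x = d x z + c) ∧
      (∀ z z' : V, z ≠ z' → (∀ j ∈ J, j • z = z ∧ j • z' = z') → (J : Set G).encard ≤ B))
    (hv : ∀ (v : V) (q : Q),
      P (MulAction.stabilizer G v ⊓ (Subgroup.zpowers q).comap f : Subgroup G)) : P G := by
  have hP' := hP.toIsFJClass
  let _ : HasShift (Hull d) :=
    { φ := shift d
      d := D
      lt := lt_shift
      cof := fun x y => by
        obtain ⟨n, hn⟩ := shift_cof h.tri x y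
        refine ⟨n, ?_⟩
        have : (shift d)^[n] x = (shift d ^ n) x := by
          clear hn
          induction n generalizing x with
          | zero => rfl
          | succ n ih =>
            rw [Function.iterate_succ_apply, ih, pow_succ]
            rfl
        rw [this]
        exact hn
      chain := fun m c hc hm => by
        refine hch m (fun i => (c i).1) (fun i _ => (c i).2) (fun i hi => ?_) fun x => hm x
        exact ⟨(hc i hi).le, fun h1 => (hc i hi).ne (Subtype.ext h1)⟩ }
  let _ : ShiftAct G (Hull d) :=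
    { toMulAction := act hd
      mono := fun g _ _ hxy x => hxy (g⁻¹ • x)
      phi := fun g x => rfl }
  have hsmul : ∀ (g : G) (t : Hull d), g • t = t ↔ ∀ x, t.1 (g⁻¹ • x) = t.1 x := by
    intro g t
    constructor
    · intro h1 x
      exact congrFun (congrArg Subtype.val h1) x
    · intro h1
      exact Subtype.ext (funext h1)
  -- the pointwise stabilizers
  have hfixJ : ∀ T : Set (Hull d), ∀ j ∈ fixingSubgroup G T ⊓ f.ker, ∀ t ∈ T, ∀ x : V,
      t.1 (j • x) = t.1 x := by
    intro T j hj t ht x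
    have h1 := (hsmul j t).1 ((mem_fixingSubgroup_iff G).1 hj.1 t ht) (j • x)
    rw [inv_smul_smul] at h1
    exact h1.symm
  have hdich : ∀ T : Set (Hull d), T.Nonempty →
      ((fixingSubgroup G T ⊓ f.ker : Subgroup G) : Set G).encard ≤ B ∨
        ∃ z, ∀ t ∈ T, ∃ c, ∀ x, t.1 x = d x z + c := by
    intro T hT
    obtain ⟨h1, h2⟩ := hR (fixingSubgroup G T ⊓ f.ker) inf_le_right
    exact dicho h h1 h2 hT (hfixJ T)
  have hrad : ∀ (T : Set (Hull d)) (z : V), T.Nonempty → (∀ t ∈ T, ∃ c, ∀ x, t.1 x = d x z + c) →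
      fixingSubgroup G T ⊓ f.ker = MulAction.stabilizer G z ⊓ f.ker := by
    intro T z hT hz
    ext g
    rw [Subgroup.mem_inf, Subgroup.mem_inf, MulAction.mem_stabilizer_iff]
    refine and_congr_left fun _ => ?_
    rw [mem_fixingSubgroup_iff]
    constructor
    · intro h1
      obtain ⟨t, ht⟩ := hT
      obtain ⟨c, hc⟩ := hz t ht
      exact (radial_fix h hd hc g).1 ((hsmul g t).1 (h1 t ht))
    · intro h1 t ht
      obtain ⟨c, hc⟩ := hz t ht
      exact (hsmul g t).2 ((radial_fix h hd hc g).2 h1)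
  refine mem_of_shift_comm (L := Hull d) hP f hQ 0 (B + 2) (fun t q => ?_) (fun T _ hmono hfar => ?_)
    (fun T _ hfar t ht => ?_)
  · -- the stabilizers
    obtain ⟨s, ⟨z, hz⟩, hs⟩ := hS1 t.1 t.2
    set H : Subgroup G := MulAction.stabilizer G t ⊓ (Subgroup.zpowers q).comap f with hH
    refine hP'.of_finiteIndex (MulAction.stabilizer H z) ⟨?_⟩ ?_
    · rw [MulAction.index_stabilizer]
      have h1 : (MulAction.orbit H z).Finite := by
        refine s.finite_toSet.subset ?_
        rintro _ ⟨g, rfl⟩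
        refine (hs _).2 fun x => ?_
        have h2 : (g : G) • t = t := g.2.1
        have h3 := (hsmul _ t).1 h2 ((g : G) • z)
        rw [inv_smul_smul] at h3
        have h4 := (hs z).1 hz x
        change t.1 ((g : G) • z) ≤ t.1 x
        rw [← h3]
        exact h4
      exact ((Set.ncard_pos h1).2 ⟨z, MulAction.mem_orbit_self z⟩).ne'
    · refine hP'.of_injective ((H.subtype.comp (MulAction.stabilizer H z).subtype).codRestrict
        (MulAction.stabilizer G z ⊓ (Subgroup.zpowers q).comap f) fun g => ?_) ?_ (hv z q)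
      · exact ⟨g.2, g.1.2.2⟩
      · intro a b hab
        have h1 := congrArg (fun y : (MulAction.stabilizer G z ⊓
          (Subgroup.zpowers q).comap f : Subgroup G) => (y : G)) hab
        exact Subtype.ext (Subtype.ext h1)
  · -- the chains
    obtain ⟨t₀, ht₀, -⟩ := hfar
    have hanti : ∀ i, fixingSubgroup G (T (i + 1)) ⊓ f.ker ≤ fixingSubgroup G (T i) ⊓ f.ker :=
      fun i => inf_le_inf_right _ (fixingSubgroup_antitone G _ (hmono i))
    have h01 : fixingSubgroup G (T 0) ⊓ f.ker = fixingSubgroup G (T 1) ⊓ f.ker ∨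
        ((fixingSubgroup G (T 1) ⊓ f.ker : Subgroup G) : Set G).encard ≤ B := by
      rcases hdich (T 1) ⟨t₀, hmono 0 ht₀⟩ with h1 | ⟨z, hz⟩
      · exact Or.inr h1
      · refine Or.inl ?_
        rw [hrad (T 0) z ⟨t₀, ht₀⟩ fun t ht => hz t (hmono 0 ht),
          hrad (T 1) z ⟨t₀, hmono 0 ht₀⟩ hz]
    rcases h01 with h1 | h1
    · exact ⟨0, by omega, Or.inl h1⟩
    · obtain ⟨i, hi1, hi2, hi3⟩ := exists_eq_of_card
        (J := fun i => fixingSubgroup G (T i) ⊓ f.ker) hanti (i₀ := 1) h1
      exact ⟨i, by omega, Or.inl hi3⟩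
  · -- the normalizers
    obtain ⟨t₀, ht₀, -⟩ := hfar
    by_cases hB : ((fixingSubgroup G T ⊓ f.ker : Subgroup G) : Set G).encard ≤ B
    · have hfin : Finite (fixingSubgroup G T ⊓ f.ker : Subgroup G) :=
        (Set.finite_of_encard_le_coe hB).to_subtype
      exact CCC.IsFJClass_sup_zpowers hP' hfin ht
    · obtain ⟨z, hz⟩ := (hdich T ⟨t₀, ht₀⟩).resolve_left hB
      have hJ := hrad T z ⟨t₀, ht₀⟩ hz
      rw [hJ] at ht hB ⊢
      have htz : t • z = z := by
        by_contra hne
        refine hB ((hR _ inf_le_right).2 (t • z) z hne fun j hj => ?_)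
        refine ⟨?_, hj.1⟩
        have h2 : t⁻¹ * j * t ∈ MulAction.stabilizer G z ⊓ f.ker := by
          refine (ht _).2 ?_
          have : t * (t⁻¹ * j * t) * t⁻¹ = j := by group
          rw [this]
          exact hj
        have h3 : (t⁻¹ * j * t) • z = z := h2.1
        rw [mul_smul, mul_smul, inv_smul_eq_iff] at h3
        exact h3
      refine hP'.of_le ?_ (hv z (f t))
      refine sup_le (inf_le_inf_left _ fun g hg => ?_) ?_
      · rw [Subgroup.mem_comap, MonoidHom.mem_ker.1 hg]
        exact one_mem _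
      · rw [Subgroup.zpowers_le]
        exact ⟨htz, Subgroup.mem_comap.2 (Subgroup.mem_zpowers _)⟩

end Pool.Agent.UPH
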