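import Pool.Agent.Lib.UPH.Main
import Pool.Agent.Lib.UPH.Fine
import Pool.Agent.Lib.UPH.StabF

/-!
# Groups acting on uniformly fine hyperbolic graphs
-/

set_option autoImplicit false

namespace Pool.Agent.UPH

open Pool.Agent.FJ Pool.Agent.GLN

/-- Let `Γ` be a connected uniformly fine graph with the four point condition, let `G` act on `Γ`,
and let `f : G → Q` be a homomorphism to a group in the class. If the pointwise stabilizers of the
edges have at most `N` elements in the kernel of `f`, and the intersections of the stabilizers of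
the vertices with the preimages of the cyclic subgroups of `Q` are in the class, then `G` is in the
class. -/
theorem mem_of_fine_graph {P : ∀ (G : Type) [Group G], Prop} (hP : IsFJClassT P)
    {G V Q : Type} [Group G] [Group Q] [MulAction G V] {Γ : SimpleGraph V} (hΓ : Γ.Connected)
    (hG : ∀ (g : G) (v w : V), Γ.Adj v w → Γ.Adj (g • v) (g • w)) (δ : ℕ)
    (h4 : ∀ x y z w, Γ.dist x y + Γ.dist z w ≤
      max (Γ.dist x z + Γ.dist y w) (Γ.dist x w + Γ.dist y z) + δ)
    (hF : ∀ n : ℕ, ∃ M : ℕ, ∀ p a : V, Γ.Adj p a →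
      {b | Γ.Adj p b ∧ ∃ w : Γ.Walk a b, w.length ≤ n ∧ p ∉ w.support}.encard ≤ M)
    (f : G →* Q) (hQ : P Q) (N : ℕ)
    (hN : ∀ v w : V, Γ.Adj v w → {g | g ∈ f.ker ∧ g • v = v ∧ g • w = w}.encard ≤ N)
    (hv : ∀ (v : V) (q : Q),
      P (MulAction.stabilizer G v ⊓ (Subgroup.zpowers q).comap f : Subgroup G)) : P G :=
  main_of (fun h hF => chain_fine h hF) (fun hne h hF => by
    have := hne
    exact minFine h hF) (fun hne h hF hd N => by
    have := hne
    exact stabFine h hF hd N) hP hΓ hG δ h4 hF f hQ N hN hv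

end Pool.Agent.UPH
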