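import Pool.Agent.Lib.UPH.Lat

/-!
# Groups fixing functions of the lattice
-/

set_option autoImplicit false

namespace Pool.Agent.UPH

variable {G V : Type} [Group G] [MulAction G V] {d : V → V → ℤ} {δ : ℤ}

/-- The functions of a set fixed by a group: bounded order, or all functions are radial about one
point. -/
theorem dicho (h : Hyp d δ) {J : Subgroup G} {B : ℕ}
    (hR1 : ∀ f : V → ℤ, IsHull d f → (∀ j ∈ J, ∀ x, f (j • x) = f x) →
      (J : Set G).encard ≤ B ∨ ∃ z c, ∀ x, f x = d x z + c)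
    (hR2 : ∀ z z' : V, z ≠ z' → (∀ j ∈ J, j • z = z ∧ j • z' = z') → (J : Set G).encard ≤ B)
    {T : Set (Hull d)} (hT : T.Nonempty) (hJ : ∀ j ∈ J, ∀ t ∈ T, ∀ x : V, t.1 (j • x) = t.1 x) :
    (J : Set G).encard ≤ B ∨ ∃ z, ∀ t ∈ T, ∃ c, ∀ x, t.1 x = d x z + c := by
  by_cases hB : (J : Set G).encard ≤ B
  · exact Or.inl hB
  have key : ∀ t ∈ T, ∃ z c, ∀ x, t.1 x = d x z + c := fun t ht =>
    (hR1 t.1 t.2 fun j hj x => hJ j hj t ht x).resolve_left hB
  have hfix : ∀ t ∈ T, ∀ z c, (∀ x, t.1 x = d x z + c) → ∀ j ∈ J, j • z = z := by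
    intro t ht z c hz j hj
    have h1 := hJ j hj t ht z
    rw [hz, hz, h.self] at h1
    exact h.eq _ _ (by linarith)
  obtain ⟨t₀, ht₀⟩ := hT
  obtain ⟨z, c, hz⟩ := key t₀ ht₀
  refine Or.inr ⟨z, fun t ht => ?_⟩
  obtain ⟨z', c', hz'⟩ := key t ht
  by_cases hzz : z = z'
  · subst hzz
    exact ⟨c', hz'⟩
  · exact absurd (hR2 z z' hzz fun j hj =>
      ⟨hfix t₀ ht₀ z c hz j hj, hfix t ht z' c' hz' j hj⟩) hB

/-- The center of a radial function is unique. -/
theorem radial_unique (h : Hyp d δ) {f : V → ℤ} {z z' : V} {c c' : ℤ}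
    (h1 : ∀ x, f x = d x z + c) (h2 : ∀ x, f x = d x z' + c') : z = z' := by
  have h3 := h1 z
  have h4 := h1 z'
  have h5 := h2 z
  have h6 := h2 z'
  have h7 := h.self z
  have h8 := h.self z'
  have h9 := h.symm z z'
  have h10 := h.nonneg z z'
  exact h.eq _ _ (by omega)

/-- The stabilizer of a radial function is the stabilizer of its center. -/
theorem radial_fix (h : Hyp d δ) (hd : ∀ (g : G) (x y : V), d (g • x) (g • y) = d x y)
    {f : V → ℤ} {z : V} {c : ℤ} (h1 : ∀ x, f x = d x z + c) (g : G) :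
    (∀ x, f (g⁻¹ • x) = f x) ↔ g • z = z := by
  constructor
  · intro h2
    have h3 := h2 (g • z)
    rw [inv_smul_smul, h1, h1, h.self] at h3
    exact h.eq _ _ (by linarith)
  · intro h2 x
    rw [h1, h1, ← hd g (g⁻¹ • x) z, smul_inv_smul, h2]

/-- A decreasing sequence of groups the first of which has order at most `B`. -/
theorem exists_eq_of_card {J : ℕ → Subgroup G} (hJ : ∀ i, J (i + 1) ≤ J i) {B i₀ : ℕ}
    (hB : (J i₀ : Set G).encard ≤ B) : ∃ i, i₀ ≤ i ∧ i < i₀ + B + 1 ∧ J i = J (i + 1) := by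
  by_contra hne
  push Not at hne
  have hfin : ∀ n, ((J (i₀ + n) : Subgroup G) : Set G).Finite := by
    intro n
    induction n with
    | zero => exact Set.finite_of_encard_le_coe hB
    | succ n ih => exact ih.subset (hJ _)
  have key : ∀ n, n ≤ B + 1 → ((J (i₀ + n) : Subgroup G) : Set G).ncard + n ≤ B := by
    intro n
    induction n with
    | zero =>
      intro _
      have h1 := (hfin 0).cast_ncard_eq
      rw [add_zero] at h1 ⊢
      rw [← h1] at hB
      rw [add_zero]
      exact_mod_cast hB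
    | succ n ih =>
      intro hn
      have h1 := ih (by omega)
      have h2 : ((J (i₀ + (n + 1)) : Subgroup G) : Set G).ncard <
          ((J (i₀ + n) : Subgroup G) : Set G).ncard := by
        refine Set.ncard_lt_ncard ?_ (hfin n)
        refine lt_of_le_of_ne (hJ (i₀ + n)) fun h3 => ?_
        exact hne (i₀ + n) (by omega) (by omega) (SetLike.coe_injective h3).symm
      omega
  have := key (B + 1) le_rfl
  omega

end Pool.Agent.UPH
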