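import Pool.Agent.Lib.UPH.Defs

/-!
# The lattice of the finite maxima of distance functions
-/

set_option autoImplicit false

namespace Pool.Agent.UPH

theorem IsHull.sup {V : Type} {d : V → V → ℤ} {f g : V → ℤ} (hf : IsHull d f) (hg : IsHull d g) :
    IsHull d (f ⊔ g) := by
  classical
  obtain ⟨s, h1, h2⟩ := hf
  obtain ⟨t, h3, h4⟩ := hg
  refine ⟨s ∪ t, fun x p hp => ?_, fun x => ?_⟩
  · rw [Pi.sup_apply]
    rcases Finset.mem_union.1 hp with h | h
    · exact (h1 x p h).trans le_sup_left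
    · exact (h3 x p h).trans le_sup_right
  · rcases le_total (g x) (f x) with h | h
    · obtain ⟨p, hp, hx⟩ := h2 x
      exact ⟨p, Finset.mem_union_left _ hp, by rw [Pi.sup_apply, sup_eq_left.2 h, hx]⟩
    · obtain ⟨p, hp, hx⟩ := h4 x
      exact ⟨p, Finset.mem_union_right _ hp, by rw [Pi.sup_apply, sup_eq_right.2 h, hx]⟩

theorem IsHull.add {V : Type} {d : V → V → ℤ} {f : V → ℤ} (hf : IsHull d f) (n : ℤ) :
    IsHull d (fun x => f x + n) := by
  classical
  obtain ⟨s, h1, h2⟩ := hf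
  refine ⟨s.image fun p => (p.1, p.2 + n), fun x p hp => ?_, fun x => ?_⟩
  · obtain ⟨q, hq, rfl⟩ := Finset.mem_image.1 hp
    have := h1 x q hq
    change d x q.1 + (q.2 + n) ≤ f x + n
    linarith
  · obtain ⟨q, hq, hx⟩ := h2 x
    refine ⟨_, Finset.mem_image_of_mem _ hq, ?_⟩
    change f x + n = d x q.1 + (q.2 + n)
    linarith

theorem isHull_ball {V : Type} (d : V → V → ℤ) (z : V) (c : ℤ) : IsHull d (fun x => d x z + c) :=
  ⟨{(z, c)}, fun x p hp => by rw [Finset.mem_singleton.1 hp], fun x => ⟨(z, c), by simp, rfl⟩⟩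

/-- The lattice. -/
abbrev Hull {V : Type} (d : V → V → ℤ) : Type := {f : V → ℤ // IsHull d f}

instance {V : Type} (d : V → V → ℤ) : SemilatticeSup (Hull d) :=
  Subtype.semilatticeSup fun _ _ hf hg => hf.sup hg

instance {V : Type} [Nonempty V] (d : V → V → ℤ) : Nonempty (Hull d) :=
  ⟨⟨_, isHull_ball d (Classical.arbitrary V) 0⟩⟩

/-- The shift. -/
def shift {V : Type} (d : V → V → ℤ) : Hull d ≃o Hull d where
  toFun f := ⟨fun x => f.1 x + 1, f.2.add 1⟩
  invFun f := ⟨fun x => f.1 x + (-1), f.2.add (-1)⟩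
  left_inv f := by
    apply Subtype.ext
    funext x
    change f.1 x + 1 + (-1) = f.1 x
    ring
  right_inv f := by
    apply Subtype.ext
    funext x
    change f.1 x + (-1) + 1 = f.1 x
    ring
  map_rel_iff' := by
    intro f g
    change (∀ x, f.1 x + 1 ≤ g.1 x + 1) ↔ (∀ x, f.1 x ≤ g.1 x)
    constructor
    · intro h x
      have := h x
      linarith
    · intro h x
      have := h x
      linarith

theorem shift_apply {V : Type} {d : V → V → ℤ} (f : Hull d) (x : V) :
    (shift d f).1 x = f.1 x + 1 := rfl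

theorem shift_pow {V : Type} {d : V → V → ℤ} (f : Hull d) (n : ℕ) (x : V) :
    ((shift d ^ n) f).1 x = f.1 x + n := by
  induction n generalizing f with
  | zero =>
    change f.1 x = f.1 x + ((0 : ℕ) : ℤ)
    push_cast
    ring
  | succ n ih =>
    have : (shift d ^ (n + 1)) f = (shift d ^ n) (shift d f) := by
      rw [pow_succ]
      rfl
    rw [this, ih, shift_apply]
    push_cast
    ring

theorem lt_shift {V : Type} [Nonempty V] {d : V → V → ℤ} (f : Hull d) : f < shift d f := by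
  refine lt_of_le_of_ne (fun x => ?_) fun h => ?_
  · change f.1 x ≤ f.1 x + 1
    linarith
  · have := congrArg (fun g : Hull d => g.1 (Classical.arbitrary V)) h
    change f.1 _ = f.1 _ + 1 at this
    linarith

/-- A function in the lattice is 1-Lipschitz. -/
theorem IsHull.lip1 {V : Type} {d : V → V → ℤ} (htri : ∀ x y z, d x z ≤ d x y + d y z)
    {f : V → ℤ} (hf : IsHull d f) (x y : V) : f x ≤ d x y + f y := by
  obtain ⟨s, h1, h2⟩ := hf
  obtain ⟨p, hp, hx⟩ := h2 x
  have h3 := h1 y p hp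
  have h4 := htri x y p.1
  linarith

/-- The shift is cofinal. -/
theorem shift_cof {V : Type} [Nonempty V] {d : V → V → ℤ} (htri : ∀ x y z, d x z ≤ d x y + d y z)
    (f g : Hull d) : ∃ n : ℕ, g ≤ (shift d ^ n) f := by
  obtain ⟨s, h1, h2⟩ := f.2
  obtain ⟨p, hp, -⟩ := h2 (Classical.arbitrary V)
  refine ⟨(g.1 p.1 - p.2).toNat, fun x => ?_⟩
  change g.1 x ≤ ((shift d ^ (g.1 p.1 - p.2).toNat) f).1 x
  rw [shift_pow]
  have h3 := h1 x p hp
  have h4 := g.2.lip1 htri x p.1
  have h5 := Int.self_le_toNat (g.1 p.1 - p.2)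
  linarith

section Act

variable {G V : Type} [Group G] [MulAction G V] {d : V → V → ℤ}

theorem IsHull.smul (hd : ∀ (g : G) (x y : V), d (g • x) (g • y) = d x y) {f : V → ℤ}
    (hf : IsHull d f) (g : G) : IsHull d (fun x => f (g⁻¹ • x)) := by
  classical
  obtain ⟨s, h1, h2⟩ := hf
  have hk : ∀ (x y : V), d (g⁻¹ • x) y = d x (g • y) := by
    intro x y
    rw [← hd g (g⁻¹ • x) y, smul_inv_smul]
  refine ⟨s.image fun p => (g • p.1, p.2), fun x p hp => ?_, fun x => ?_⟩
  · obtain ⟨q, hq, rfl⟩ := Finset.mem_image.1 hp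
    have := h1 (g⁻¹ • x) q hq
    rw [hk] at this
    exact this
  · obtain ⟨q, hq, hx⟩ := h2 (g⁻¹ • x)
    refine ⟨_, Finset.mem_image_of_mem _ hq, ?_⟩
    rw [hk] at hx
    exact hx

/-- The action on the lattice. -/
@[reducible] def act (hd : ∀ (g : G) (x y : V), d (g • x) (g • y) = d x y) : MulAction G (Hull d) where
  smul g f := ⟨fun x => f.1 (g⁻¹ • x), f.2.smul hd g⟩
  one_smul f := by
    apply Subtype.ext
    funext x
    change f.1 ((1 : G)⁻¹ • x) = f.1 x
    rw [inv_one, one_smul]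
  mul_smul g h f := by
    apply Subtype.ext
    funext x
    change f.1 ((g * h)⁻¹ • x) = f.1 (h⁻¹ • g⁻¹ • x)
    rw [mul_inv_rev, mul_smul]

end Act

end Pool.Agent.UPH
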