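import Pool.Agent.Lib.UPH.FJ
import Pool.Agent.Lib.UPH.Graph

/-!
# Groups acting on uniformly fine hyperbolic graphs: the final theorem from its parts
-/

set_option autoImplicit false

namespace Pool.Agent.UPH

open Pool.Agent.FJ Pool.Agent.GLN Pool.Agent.LSH

/-- The statement on chains. -/
def ChainFine : Prop :=
  ∀ {V : Type} {d : V → V → ℤ} {δ : ℕ}, Hyp d (δ : ℤ) →
    (∀ n : ℕ, ∃ M : ℕ, ∀ p a, d p a = 1 → {b | d p b = 1 ∧ Av d p n a b}.encard ≤ M) →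
    ∃ D : ℕ, ∀ (n : ℕ) (c : ℕ → V → ℤ), (∀ i, i ≤ n → IsHull d (c i)) →
      (∀ i, i < n → c i ≤ c (i + 1) ∧ c i ≠ c (i + 1)) → (∀ x, c n x ≤ c 0 x + 1) → n ≤ D

/-- The statement on the set of the minima. -/
def MinFine : Prop :=
  ∀ {V : Type} {d : V → V → ℤ} {δ : ℕ}, Nonempty V → Hyp d (δ : ℤ) →
    (∀ n : ℕ, ∃ M : ℕ, ∀ p a, d p a = 1 → {b | d p b = 1 ∧ Av d p n a b}.encard ≤ M) →
    ∃ K : ℕ, ∀ f : V → ℤ, IsHull d f → ∃ s : Finset V, s.Nonempty ∧ s.card ≤ K ∧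
      ∀ w, w ∈ s ↔ ∀ x, f w ≤ f x

/-- The statement on the stabilizers. -/
def StabFine : Prop :=
  ∀ {G V : Type} [Group G] [MulAction G V] {d : V → V → ℤ} {δ : ℕ}, Nonempty V →
    Hyp d (δ : ℤ) →
    (∀ n : ℕ, ∃ M : ℕ, ∀ p a, d p a = 1 → {b | d p b = 1 ∧ Av d p n a b}.encard ≤ M) →
    (∀ (g : G) (x y : V), d (g • x) (g • y) = d x y) → ∀ N : ℕ,
    ∃ B : ℕ, ∀ J : Subgroup G,
      (∀ a b : V, d a b = 1 → {j | j ∈ J ∧ j • a = a ∧ j • b = b}.encard ≤ N) →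
      (∀ f : V → ℤ, IsHull d f → (∀ j ∈ J, ∀ x, f (j • x) = f x) →
        (J : Set G).encard ≤ B ∨ ∃ z c, ∀ x, f x = d x z + c) ∧
      (∀ z z' : V, z ≠ z' → (∀ j ∈ J, j • z = z ∧ j • z' = z') → (J : Set G).encard ≤ B)

theorem main_of (hC : ChainFine) (hM : MinFine) (hS : StabFine)
    {P : ∀ (G : Type) [Group G], Prop} (hP : IsFJClassT P)
    {G V Q : Type} [Group G] [Group Q] [MulAction G V] {Γ : SimpleGraph V} (hΓ : Γ.Connected)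
    (hG : ∀ (g : G) (v w : V), Γ.Adj v w → Γ.Adj (g • v) (g • w)) (δ : ℕ)
    (h4 : ∀ x y z w, Γ.dist x y + Γ.dist z w ≤
      max (Γ.dist x z + Γ.dist y w) (Γ.dist x w + Γ.dist y z) + δ)
    (hF : ∀ n : ℕ, ∃ M : ℕ, ∀ p a : V, Γ.Adj p a →
      {b | Γ.Adj p b ∧ ∃ w : Γ.Walk a b, w.length ≤ n ∧ p ∉ w.support}.encard ≤ M)
    (f : G →* Q) (hQ : P Q) (N : ℕ)
    (hN : ∀ v w : V, Γ.Adj v w → {g | g ∈ f.ker ∧ g • v = v ∧ g • w = w}.encard ≤ N)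
    (hv : ∀ (v : V) (q : Q),
      P (MulAction.stabilizer G v ⊓ (Subgroup.zpowers q).comap f : Subgroup G)) : P G := by
  have hne : Nonempty V := hΓ.nonempty
  have h := hyp_of_graph hΓ h4
  have hF' := fine_of_graph hF
  have hd : ∀ (g : G) (x y : V), (fun x y => (Γ.dist x y : ℤ)) (g • x) (g • y) =
      (fun x y => (Γ.dist x y : ℤ)) x y := by
    intro g x y
    change (Γ.dist (g • x) (g • y) : ℤ) = (Γ.dist x y : ℤ)
    rw [dist_smul hΓ hG]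
  obtain ⟨D, hD⟩ := hC h hF'
  obtain ⟨K, hK⟩ := hM hne h hF'
  obtain ⟨B, hB⟩ := hS hne h hF' hd N
  refine mem_of_hull hP h hd f hQ D hD (fun t ht => ?_) B (fun J hJ => ?_) hv
  · obtain ⟨s, h1, -, h2⟩ := hK t ht
    exact ⟨s, h1, h2⟩
  · refine hB J fun a b hab => (Set.encard_le_encard ?_).trans (hN a b ((adj_iff_dist _ _).1 hab))
    rintro j ⟨h1, h2⟩
    exact ⟨hJ h1, h2⟩

end Pool.Agent.UPH
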