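import Mathlib

/-!
# Chains in a finite product of partially ordered sets
-/

set_option autoImplicit false

namespace Pool.Agent.UPH

/-- The strict steps of a weakly increasing sequence form a chain. -/
theorem exists_strict_chain {α : Type*} [PartialOrder α] [DecidableEq α] (a : ℕ → α) :
    ∀ m : ℕ, (∀ k < m, a k ≤ a (k + 1)) → ∃ b : ℕ → α, b 0 = a 0 ∧
      b ((Finset.range m).filter (fun k => a k ≠ a (k + 1))).card = a m ∧
      ∀ k < ((Finset.range m).filter (fun k => a k ≠ a (k + 1))).card, b k < b (k + 1) := by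
  intro m
  induction m with
  | zero => intro _; exact ⟨a, rfl, by simp, by simp⟩
  | succ m ih =>
    intro h
    obtain ⟨b, hb0, hb1, hb2⟩ := ih (fun k hk => h k (by omega))
    rw [Finset.range_add_one, Finset.filter_insert]
    by_cases hne : a m ≠ a (m + 1)
    · rw [if_pos hne, Finset.card_insert_of_notMem (by simp)]
      set n := ((Finset.range m).filter (fun k => a k ≠ a (k + 1))).card with hn
      refine ⟨fun k => if k ≤ n then b k else a (m + 1), ?_, ?_, ?_⟩
      · simpa using hb0
      · simp
      · intro k hk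
        rcases Nat.lt_or_ge k n with h1 | h1
        · have h2 := hb2 k h1
          simpa [h1.le, Nat.succ_le_of_lt h1] using h2
        · have h2 : k = n := by omega
          subst h2
          simp only [le_refl, if_true, show ¬ (n + 1 ≤ n) by omega, if_false]
          rw [hb1]
          exact lt_of_le_of_ne (h m (by omega)) hne
    · rw [if_neg hne]
      refine ⟨b, hb0, ?_, hb2⟩
      rw [hb1]
      exact not_not.1 hne

/-- The chain bound for a finite product. -/
theorem pi_chain {ι : Type*} [Fintype ι] {L : ι → Type*} [∀ i, PartialOrder (L i)]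
    (φ : ∀ i, L i → L i) (D : ι → ℕ)
    (hD : ∀ i, ∀ (m : ℕ) (c : ℕ → L i), (∀ k < m, c k < c (k + 1)) → c m ≤ φ i (c 0) → m ≤ D i)
    (m : ℕ) (c : ℕ → ∀ i, L i) (hc : ∀ k < m, c k < c (k + 1))
    (hm : ∀ i, c m i ≤ φ i (c 0 i)) : m ≤ ∑ i, D i := by
  classical
  have hle : ∀ i, ∀ k < m, c k i ≤ c (k + 1) i := fun i k hk => (hc k hk).le i
  have h1 : ∀ i, ((Finset.range m).filter (fun k => c k i ≠ c (k + 1) i)).card ≤ D i := by
    intro i
    obtain ⟨b, hb0, hb1, hb2⟩ := exists_strict_chain (fun k => c k i) m (hle i)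
    refine hD i _ b hb2 ?_
    rw [hb1, hb0]
    exact hm i
  have h2 : Finset.range m ⊆ Finset.univ.biUnion
      (fun i => (Finset.range m).filter (fun k => c k i ≠ c (k + 1) i)) := by
    intro k hk
    have h3 : ∃ i, c k i ≠ c (k + 1) i := by
      by_contra hcon
      push Not at hcon
      exact (hc k (Finset.mem_range.1 hk)).ne (funext hcon)
    obtain ⟨i, hi⟩ := h3
    exact Finset.mem_biUnion.2 ⟨i, Finset.mem_univ i, Finset.mem_filter.2 ⟨hk, hi⟩⟩
  calc m = (Finset.range m).card := (Finset.card_range m).symm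
    _ ≤ _ := Finset.card_le_card h2
    _ ≤ ∑ i, ((Finset.range m).filter (fun k => c k i ≠ c (k + 1) i)).card :=
        Finset.card_biUnion_le
    _ ≤ ∑ i, D i := Finset.sum_le_sum fun i _ => h1 i

end Pool.Agent.UPH
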