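import Pool.Agent.Lib.UPH.PiGrp
import Pool.Agent.Lib.LSH.Rel

/-!
# Groups acting on finitely many hyperbolic graphs: the group side
-/

set_option autoImplicit false

namespace Pool.Agent.UPH

open Pool.Agent.FJ Pool.Agent.GLN Pool.Agent.LSH

section

variable {ι : Type} {V : ι → Type}

/-- The coordinatewise shift. -/
def shiftPi (d : ∀ i, V i → V i → ℤ) : (∀ i, Hull (d i)) ≃o (∀ i, Hull (d i)) where
  toFun t := fun i => shift (d i) (t i)
  invFun t := fun i => (shift (d i)).symm (t i)
  left_inv t := funext fun i => (shift (d i)).symm_apply_apply (t i)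
  right_inv t := funext fun i => (shift (d i)).apply_symm_apply (t i)
  map_rel_iff' := by
    intro s t
    exact forall_congr' fun i => (shift (d i)).le_iff_le

theorem shiftPi_iter (d : ∀ i, V i → V i → ℤ) (t : ∀ i, Hull (d i)) (n : ℕ) (i : ι) (x : V i) :
    (((shiftPi d)^[n] t) i).1 x = (t i).1 x + n := by
  induction n generalizing t with
  | zero =>
    change (t i).1 x = (t i).1 x + ((0 : ℕ) : ℤ)
    push_cast
    ring
  | succ n ih =>
    rw [Function.iterate_succ_apply, ih]
    change (t i).1 x + 1 + (n : ℤ) = (t i).1 x + ((n + 1 : ℕ) : ℤ)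
    push_cast
    ring

end

/-- The lattice of the tuples of finite maxima of functions `d (·, y) + c`, and the theorem on
groups acting on semilattices with a shift. -/
theorem mem_of_hull_pi {P : ∀ (G : Type) [Group G], Prop} (hP : IsFJClassT P)
    {G ι Q : Type} [Group G] [Group Q] [Fintype ι] [Nonempty ι] {V : ι → Type}
    [∀ i, MulAction G (V i)] [∀ i, Nonempty (V i)] {d : ∀ i, V i → V i → ℤ} {δ : ι → ℤ}
    (h : ∀ i, Hyp (d i) (δ i)) (hd : ∀ i, ∀ (g : G) (x y : V i), d i (g • x) (g • y) = d i x y)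
    (f : G →* Q) (hQ : P Q)
    (D : ι → ℕ) (hch : ∀ i, ∀ (n : ℕ) (c : ℕ → V i → ℤ), (∀ k, k ≤ n → IsHull (d i) (c k)) →
      (∀ k, k < n → c k ≤ c (k + 1) ∧ c k ≠ c (k + 1)) → (∀ x, c n x ≤ c 0 x + 1) → n ≤ D i)
    (K : ℕ) (hS1 : ∀ i, ∀ f : V i → ℤ, IsHull (d i) f → ∃ s : Finset (V i), s.Nonempty ∧
      s.card ≤ K ∧ ∀ w, w ∈ s ↔ ∀ x, f w ≤ f x)
    (B : ℕ) (hR : ∀ i, ∀ H : Subgroup G, H ≤ f.ker →
      (∃ v : ∀ j, V j, ∀ g ∈ H, ∀ j, j ≠ i → g • v j = v j) →
      (∀ f : V i → ℤ, IsHull (d i) f → (∀ j ∈ H, ∀ x, f (j • x) = f x) →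
        (H : Set G).encard ≤ B ∨ ∃ z c, ∀ x, f x = d i x z + c) ∧
      (∀ z z' : V i, z ≠ z' → (∀ j ∈ H, j • z = z ∧ j • z' = z') → (H : Set G).encard ≤ B))
    (hv : ∀ (v : ∀ i, V i) (q : Q),
      P (MulAction.stabilizer G v ⊓ (Subgroup.zpowers q).comap f : Subgroup G)) : P G := by
  classical
  have hP' := hP.toIsFJClass
  let _ : HasShift (∀ i, Hull (d i)) :=
    { φ := shiftPi d
      d := ∑ i, D i
      lt := fun t => Pi.lt_def.2 ⟨fun i => (lt_shift (t i)).le, ⟨Classical.arbitrary ι,
        lt_shift _⟩⟩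
      cof := fun x y => by
        have h1 := fun i => shift_cof (h i).tri (x i) (y i)
        choose n hn using h1
        refine ⟨Finset.univ.sup n, fun i v => ?_⟩
        have h2 : (y i).1 v ≤ ((shift (d i) ^ n i) (x i)).1 v := hn i v
        have h3 : n i ≤ Finset.univ.sup n := Finset.le_sup (Finset.mem_univ i)
        rw [shift_pow] at h2
        change (y i).1 v ≤ (((shiftPi d)^[Finset.univ.sup n] x) i).1 v
        rw [shiftPi_iter]
        have h4 : (n i : ℤ) ≤ (Finset.univ.sup n : ℕ) := by exact_mod_cast h3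
        linarith
      chain := fun m c hc hm => by
        refine pi_chain (fun i => shift (d i)) D (fun i m' c' hc' hm' => ?_) m c hc hm
        refine hch i m' (fun k => (c' k).1) (fun k _ => (c' k).2) (fun k hk => ?_) fun x => hm' x
        exact ⟨(hc' k hk).le, fun h1 => (hc' k hk).ne (Subtype.ext h1)⟩ }
  let _ : ShiftAct G (∀ i, Hull (d i)) :=
    { smul := fun g t i => ⟨fun x => (t i).1 (g⁻¹ • x), (t i).2.smul (hd i) g⟩
      one_smul := fun t => by
        funext i
        apply Subtype.ext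
        funext x
        change (t i).1 ((1 : G)⁻¹ • x) = (t i).1 x
        rw [inv_one, one_smul]
      mul_smul := fun g h t => by
        funext i
        apply Subtype.ext
        funext x
        change (t i).1 ((g * h)⁻¹ • x) = (t i).1 (h⁻¹ • g⁻¹ • x)
        rw [mul_inv_rev, mul_smul]
      mono := fun g _ _ hxy i x => hxy i (g⁻¹ • x)
      phi := fun g x => rfl }
  have hsmul : ∀ (g : G) (t : ∀ i, Hull (d i)),
      g • t = t ↔ ∀ (i : ι) (x : V i), (t i).1 (g⁻¹ • x) = (t i).1 x := by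
    intro g t
    constructor
    · intro h1 i x
      exact congrFun (congrArg Subtype.val (congrFun h1 i)) x
    · intro h1
      exact funext fun i => Subtype.ext (funext (h1 i))
  -- the pointwise stabilizers
  have hfixJ : ∀ T : Set (∀ i, Hull (d i)), ∀ j ∈ fixingSubgroup G T ⊓ f.ker, ∀ t ∈ T,
      ∀ (i : ι) (x : V i), (t i).1 (j • x) = (t i).1 x := by
    intro T j hj t ht i x
    have h1 := (hsmul j t).1 ((mem_fixingSubgroup_iff G).1 hj.1 t ht) i (j • x)
    rw [inv_smul_smul] at h1
    exact h1.symm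
  set B' : ℕ := (K + 1) ^ Fintype.card ι * B with hB'
  have hBB' : (B : ℕ∞) ≤ B' := by
    have h1 : B ≤ B' := by
      rw [hB']
      exact Nat.le_mul_of_pos_left B (pow_pos (Nat.succ_pos K) _)
    exact_mod_cast h1
  have hdich : ∀ T : Set (∀ i, Hull (d i)), T.Nonempty →
      ((fixingSubgroup G T ⊓ f.ker : Subgroup G) : Set G).encard ≤ B' ∨
        ∃ z : ∀ i, V i, ∀ t ∈ T, ∀ i, ∃ c, ∀ x, (t i).1 x = d i x (z i) + c := by
    intro T hT
    exact dicho_pi h (K := K + 1) (B := B) (fun i f hf => by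
      obtain ⟨s, h1, h2, h3⟩ := hS1 i f hf
      exact ⟨s, h1, by omega, h3⟩) (fun i H hH => hR i H (hH.trans inf_le_right)) hT (hfixJ T)
  have hrad : ∀ (T : Set (∀ i, Hull (d i))) (z : ∀ i, V i), T.Nonempty →
      (∀ t ∈ T, ∀ i, ∃ c, ∀ x, (t i).1 x = d i x (z i) + c) →
      fixingSubgroup G T ⊓ f.ker = MulAction.stabilizer G z ⊓ f.ker := by
    intro T z hT hz
    ext g
    rw [Subgroup.mem_inf, Subgroup.mem_inf, MulAction.mem_stabilizer_iff]
    refine and_congr_left fun _ => ?_
    rw [mem_fixingSubgroup_iff]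
    constructor
    · intro h1
      obtain ⟨t, ht⟩ := hT
      funext i
      obtain ⟨c, hc⟩ := hz t ht i
      exact (radial_fix (h i) (hd i) hc g).1 ((hsmul g t).1 (h1 t ht) i)
    · intro h1 t ht
      refine (hsmul g t).2 fun i => ?_
      obtain ⟨c, hc⟩ := hz t ht i
      exact (radial_fix (h i) (hd i) hc g).2 (congrFun h1 i)
  refine mem_of_shift_comm (L := ∀ i, Hull (d i)) hP f hQ 0 (B' + 2) (fun t q => ?_) (fun T _ hmono hfar => ?_)
    (fun T _ hfar t ht => ?_)
  · -- the stabilizers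
    have h1 := fun i => hS1 i (t i).1 (t i).2
    choose s hs1 hs2 hs3 using h1
    choose z hz using hs1
    set H : Subgroup G := MulAction.stabilizer G t ⊓ (Subgroup.zpowers q).comap f with hH
    refine hP'.of_finiteIndex (MulAction.stabilizer H z) ⟨?_⟩ ?_
    · rw [MulAction.index_stabilizer]
      have h1 : (MulAction.orbit H z).Finite := by
        refine (Fintype.piFinset s).finite_toSet.subset ?_
        rintro _ ⟨g, rfl⟩
        refine Fintype.mem_piFinset.2 fun i => (hs3 i _).2 fun x => ?_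
        have h2 : (g : G) • t = t := g.2.1
        have h3 := (hsmul _ t).1 h2 i ((g : G) • z i)
        rw [inv_smul_smul] at h3
        have h4 := (hs3 i (z i)).1 (hz i) x
        change (t i).1 ((g : G) • z i) ≤ (t i).1 x
        rw [← h3]
        exact h4
      exact ((Set.ncard_pos h1).2 ⟨z, MulAction.mem_orbit_self z⟩).ne'
    · refine hP'.of_injective ((H.subtype.comp (MulAction.stabilizer H z).subtype).codRestrict
        (MulAction.stabilizer G z ⊓ (Subgroup.zpowers q).comap f) fun g => ?_) ?_ (hv z q)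
      · exact ⟨g.2, g.1.2.2⟩
      · intro a b hab
        have h1 := congrArg (fun y : (MulAction.stabilizer G z ⊓
          (Subgroup.zpowers q).comap f : Subgroup G) => (y : G)) hab
        exact Subtype.ext (Subtype.ext h1)
  · -- the chains
    obtain ⟨t₀, ht₀, -⟩ := hfar
    have hanti : ∀ i, fixingSubgroup G (T (i + 1)) ⊓ f.ker ≤ fixingSubgroup G (T i) ⊓ f.ker :=
      fun i => inf_le_inf_right _ (fixingSubgroup_antitone G _ (hmono i))
    have h01 : fixingSubgroup G (T 0) ⊓ f.ker = fixingSubgroup G (T 1) ⊓ f.ker ∨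
        ((fixingSubgroup G (T 1) ⊓ f.ker : Subgroup G) : Set G).encard ≤ B' := by
      rcases hdich (T 1) ⟨t₀, hmono 0 ht₀⟩ with h1 | ⟨z, hz⟩
      · exact Or.inr h1
      · refine Or.inl ?_
        rw [hrad (T 0) z ⟨t₀, ht₀⟩ fun t ht => hz t (hmono 0 ht),
          hrad (T 1) z ⟨t₀, hmono 0 ht₀⟩ hz]
    rcases h01 with h1 | h1
    · exact ⟨0, by omega, Or.inl h1⟩
    · obtain ⟨i, hi1, hi2, hi3⟩ := exists_eq_of_card
        (J := fun i => fixingSubgroup G (T i) ⊓ f.ker) hanti (i₀ := 1) h1
      exact ⟨i, by omega, Or.inl hi3⟩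
  · -- the normalizers
    obtain ⟨t₀, ht₀, -⟩ := hfar
    by_cases hB : ((fixingSubgroup G T ⊓ f.ker : Subgroup G) : Set G).encard ≤ B'
    · have hfin : Finite (fixingSubgroup G T ⊓ f.ker : Subgroup G) :=
        (Set.finite_of_encard_le_coe hB).to_subtype
      exact CCC.IsFJClass_sup_zpowers hP' hfin ht
    · obtain ⟨z, hz⟩ := (hdich T ⟨t₀, ht₀⟩).resolve_left hB
      have hJ := hrad T z ⟨t₀, ht₀⟩ hz
      rw [hJ] at ht hB ⊢
      have htz : t • z = z := by
        by_contra hne
        have h0 : ∃ i, t • z i ≠ z i := by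
          by_contra hcon
          push Not at hcon
          exact hne (funext hcon)
        obtain ⟨i, hi⟩ := h0
        refine hB ((((hR i (MulAction.stabilizer G z ⊓ f.ker) inf_le_right
          ⟨z, fun g hg j _ => congrFun (show g • z = z from hg.1) j⟩).2 (t • z i) (z i) hi fun j hj => ?_)).trans hBB')
        refine ⟨?_, congrFun (show j • z = z from hj.1) i⟩
        have h2 : t⁻¹ * j * t ∈ MulAction.stabilizer G z ⊓ f.ker := by
          refine (ht _).2 ?_
          have : t * (t⁻¹ * j * t) * t⁻¹ = j := by group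
          rw [this]
          exact hj
        have h3 : (t⁻¹ * j * t) • z i = z i := congrFun (show (t⁻¹ * j * t) • z = z from h2.1) i
        rw [mul_smul, mul_smul, inv_smul_eq_iff] at h3
        exact h3
      refine hP'.of_le ?_ (hv z (f t))
      refine sup_le (inf_le_inf_left _ fun g hg => ?_) ?_
      · rw [Subgroup.mem_comap, MonoidHom.mem_ker.1 hg]
        exact one_mem _
      · rw [Subgroup.zpowers_le]
        exact ⟨htz, Subgroup.mem_comap.2 (Subgroup.mem_zpowers _)⟩

end Pool.Agent.UPH
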