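import Pool.Agent.Lib.UPH.Defs

/-!
# Uniformly fine hyperbolic graphs: the stabilizers of finite maxima of functions `d(·, y) + c`

`argmin_bound`: the set of the minima of such a function has at most `K` elements.
`stab_bound`: a group whose edge stabilizers have at most `N` elements and which fixes such a
function, or two vertices, has at most `B` elements, or the function is `d(·, z) + c`.
-/

set_option autoImplicit false

namespace Pool.Agent.UPH

variable {V : Type} {d : V → V → ℤ} {δ : ℤ}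

/-- the abstract form of what is needed: a relation with symmetry, composition, the angle property
and the bounds for the number of the related neighbours -/
structure Rel (d : V → V → ℤ) (A A2 : V → V → V → Prop) (M : ℕ) : Prop where
  comp : ∀ p a b c, A p a c → A p b c → A2 p a b
  ang : ∀ p x y a b, d x y < d x p + d p y → d p a = 1 → d a x = d p x - 1 → d p b = 1 →
    d b y = d p y - 1 → A p a b
  fin : ∀ p a, d p a = 1 → {b | d p b = 1 ∧ A p a b}.encard ≤ M
  fin2 : ∀ p a, d p a = 1 → {b | d p b = 1 ∧ A2 p a b}.encard ≤ M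

theorem encard_iUnion_finset_le {α ι : Type} (s : Finset ι) (F : ι → Set α) (N : ℕ∞)
    (h : ∀ i ∈ s, (F i).encard ≤ N) : (⋃ i ∈ s, F i).encard ≤ s.card * N := by
  classical
  induction s using Finset.induction_on with
  | empty => simp
  | insert a s ha ih =>
    rw [Finset.set_biUnion_insert, Finset.card_insert_of_notMem ha]
    refine (Set.encard_union_le _ _).trans ?_
    push_cast
    rw [add_mul, one_mul, add_comm]
    exact add_le_add (ih fun i hi => h i (Finset.mem_insert_of_mem hi))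
      (h a (Finset.mem_insert_self _ _))

theorem encard_iUnion_le {α ι : Type} (S : Set ι) (F : ι → Set α) (M : ℕ) (N : ℕ∞)
    (hS : S.encard ≤ M) (h : ∀ i ∈ S, (F i).encard ≤ N) : (⋃ i ∈ S, F i).encard ≤ M * N := by
  have hfin : S.Finite := Set.finite_of_encard_le_coe hS
  have h1 := encard_iUnion_finset_le hfin.toFinset F N fun i hi => h i (by simpa using hi)
  simp only [Set.Finite.mem_toFinset] at h1
  refine h1.trans (mul_le_mul_left ?_ _)
  rwa [← hfin.encard_eq_coe_toFinset_card]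

/-- neighbours on geodesics -/
theorem exists_next (h : Hyp d δ) {p x : V} (hne : p ≠ x) : ∃ a, d p a = 1 ∧ d a x = d p x - 1 := by
  have h1 := h.nonneg p x
  have h2 : d p x ≠ 0 := fun h0 => hne (h.eq _ _ h0)
  obtain ⟨a, ha⟩ := h.geo p x 1 (by omega) (by omega)
  exact ⟨a, ha⟩

/-- hull functions are Lipschitz -/
theorem IsHull.lip (h : Hyp d δ) {f : V → ℤ} (hf : IsHull d f) (x y : V) : f x ≤ f y + d x y := by
  obtain ⟨s, hs1, hs2⟩ := hf
  obtain ⟨p, hp, hx⟩ := hs2 x
  have h1 := hs1 y p hp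
  have h2 := h.tri x y p.1
  omega

section argmin
variable {A A2 : V → V → V → Prop} {M : ℕ}

theorem argmin_related (h : Hyp d δ) (hR : Rel d A A2 M) {f : V → ℤ} (hf : IsHull d f)
    {z w₁ w₂ a₁ a₂ : V} (h1 : ∀ x, f w₁ ≤ f x) (h2 : ∀ x, f w₂ ≤ f x) (hz1 : z ≠ w₁) (hz2 : z ≠ w₂)
    (ha1 : d z a₁ = 1) (ha1' : d a₁ w₁ = d z w₁ - 1) (ha2 : d z a₂ = 1)
    (ha2' : d a₂ w₂ = d z w₂ - 1) : A2 z a₁ a₂ := by
  obtain ⟨s, hs1, hs2⟩ := id hf
  obtain ⟨p, hp, hz⟩ := hs2 z
  have e1 : 0 < d z w₁ := by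
    have := h.nonneg z w₁
    have h0 : d z w₁ ≠ 0 := fun h0 => hz1 (h.eq _ _ h0)
    omega
  have e2 : 0 < d z w₂ := by
    have := h.nonneg z w₂
    have h0 : d z w₂ ≠ 0 := fun h0 => hz2 (h.eq _ _ h0)
    omega
  have hy : z ≠ p.1 := by
    intro hzp
    have h3 := hs1 w₁ p hp
    have h4 := h1 z
    rw [← hzp] at h3 hz
    have h5 := h.self z
    have h6 := h.symm z w₁
    omega
  obtain ⟨b, hb, hb'⟩ := exists_next h hy
  refine hR.comp z a₁ a₂ b (hR.ang z w₁ p.1 a₁ b ?_ ha1 ha1' hb hb')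
    (hR.ang z w₂ p.1 a₂ b ?_ ha2 ha2' hb hb')
  · have h3 := hs1 w₁ p hp
    have h4 := h1 z
    have h6 := h.symm z w₁
    omega
  · have h3 := hs1 w₂ p hp
    have h4 := h2 z
    have h6 := h.symm z w₂
    omega

theorem argmin_level (h : Hyp d δ) (hR : Rel d A A2 M) {f : V → ℤ} (hf : IsHull d f) (k : ℕ) :
    ∀ z : V, {w | (∀ x, f w ≤ f x) ∧ d z w = k}.encard ≤ (M ^ k : ℕ) := by
  induction k with
  | zero =>
    intro z
    have : {w | (∀ x, f w ≤ f x) ∧ d z w = (0 : ℕ)} ⊆ {z} := by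
      rintro w ⟨-, hw⟩
      exact (h.eq _ _ (by simpa using hw)).symm
    exact (Set.encard_le_encard this).trans (by simp)
  | succ k ih =>
    intro z
    set W := {w | (∀ x, f w ≤ f x) ∧ d z w = ((k + 1 : ℕ) : ℤ)} with hW
    rcases W.eq_empty_or_nonempty with he | ⟨w₀, hw₀⟩
    · rw [he]; simp
    · have hne : ∀ w, d z w = ((k + 1 : ℕ) : ℤ) → z ≠ w := by
        rintro w hw rfl
        rw [h.self] at hw
        push_cast at hw
        omega
      obtain ⟨a₀, ha₀, ha₀'⟩ := exists_next h (hne w₀ hw₀.2)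
      have hsub : W ⊆ ⋃ a ∈ {b | d z b = 1 ∧ A2 z a₀ b}, {w | (∀ x, f w ≤ f x) ∧ d a w = k} := by
        rintro w ⟨hw1, hw2⟩
        obtain ⟨a, ha, ha'⟩ := exists_next h (hne w hw2)
        refine Set.mem_biUnion (show a ∈ {b | d z b = 1 ∧ A2 z a₀ b} from ⟨ha,
          argmin_related h hR hf hw₀.1 hw1 (hne w₀ hw₀.2) (hne w hw2) ha₀ ha₀' ha ha'⟩) ⟨hw1, ?_⟩
        push_cast at hw2
        omega
      refine (Set.encard_le_encard hsub).trans ((encard_iUnion_le _ _ M ((M ^ k : ℕ) : ℕ∞)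
        (hR.fin2 z a₀ ha₀) fun a _ => ih a).trans ?_)
      rw [pow_succ']
      push_cast
      exact le_rfl

theorem exists_argmin (h : Hyp d δ) {f : V → ℤ} (hf : IsHull d f) (x₀ : V) :
    ∃ w, ∀ x, f w ≤ f x := by
  obtain ⟨m, r, hmr⟩ := center h hf x₀
  have hb : ∀ x, r - δ ≤ f x := fun x => by
    have h1 := (hmr x).1
    have h2 := h.nonneg x m
    omega
  obtain ⟨n, ⟨w, hw⟩, hn⟩ := Int.exists_least_of_bdd (P := fun n => ∃ w, f w = n)
    ⟨r - δ, by rintro n ⟨w, rfl⟩; exact hb w⟩ ⟨f x₀, x₀, rfl⟩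
  exact ⟨w, fun x => hw ▸ hn (f x) ⟨x, rfl⟩⟩

/-- the number of the minima of a hull function is bounded -/
theorem argmin_bound (h : Hyp d δ) (hR : Rel d A A2 M) (x₀ : V) : ∃ K : ℕ, ∀ f, IsHull d f →
    ∃ s : Finset V, s.Nonempty ∧ s.card ≤ K ∧ ∀ w, w ∈ s ↔ ∀ x, f w ≤ f x := by
  classical
  have hδ := h.delta_nonneg x₀
  set L := (4 * δ + 2).toNat with hL
  refine ⟨(L + 1) * (M + 1) ^ L, fun f hf => ?_⟩
  obtain ⟨w₀, hw₀⟩ := exists_argmin h hf x₀
  obtain ⟨m, r, hmr⟩ := center h hf x₀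
  have hm : ∀ w, (∀ x, f w ≤ f x) → d w m ≤ 2 * δ + 1 := fun w hw => by
    have h1 := (hmr w).1
    have h2 := (hmr m).2
    have h3 := h.self m
    have h4 := hw m
    omega
  have hsub : {w | ∀ x, f w ≤ f x} ⊆ ⋃ k ∈ Finset.range (L + 1),
      {w | (∀ x, f w ≤ f x) ∧ d w₀ w = (k : ℤ)} := by
    intro w hw
    have h1 := hm w hw
    have h2 := hm w₀ hw₀
    have h3 := h.tri w₀ m w
    have h4 := h.symm m w
    have h5 := h.nonneg w₀ w
    refine Set.mem_biUnion (x := (d w₀ w).toNat) ?_ ⟨hw, ?_⟩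
    · simp only [Finset.coe_range, Set.mem_Iio]
      omega
    · omega
  have hcard : {w | ∀ x, f w ≤ f x}.encard ≤ (((L + 1) * (M + 1) ^ L : ℕ) : ℕ∞) := by
    refine (Set.encard_le_encard hsub).trans ((encard_iUnion_finset_le _ _
      (((M + 1) ^ L : ℕ) : ℕ∞) fun k hk => ?_).trans ?_)
    · refine (argmin_level h hR hf k w₀).trans ?_
      rw [Finset.mem_range] at hk
      exact_mod_cast (Nat.pow_le_pow_left (Nat.le_succ M) k).trans
        (Nat.pow_le_pow_right (Nat.succ_pos M) (by omega))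
    · rw [Finset.card_range]
      push_cast
      exact le_rfl
  have hfin : {w | ∀ x, f w ≤ f x}.Finite := Set.finite_of_encard_le_coe hcard
  refine ⟨hfin.toFinset, ⟨w₀, by simpa using hw₀⟩, ?_, fun w => by simp⟩
  rw [hfin.encard_eq_coe_toFinset_card] at hcard
  exact_mod_cast hcard

end argmin

section group
variable {A A2 : V → V → V → Prop} {M N : ℕ} {G : Type} [Group G] [MulAction G V]

/-- orbit counting -/
theorem orbit_count (J : Subgroup G) (b : V) (S : Set V) (hS : S.encard ≤ M)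
    (hJ : ∀ j ∈ J, j • b ∈ S) (N : ℕ∞) (hN : {j | j ∈ J ∧ j • b = b}.encard ≤ N) :
    (J : Set G).encard ≤ M * N := by
  have hsub : (J : Set G) ⊆ ⋃ v ∈ S, {j | j ∈ J ∧ j • b = v} := fun j hj =>
    Set.mem_biUnion (hJ j hj) ⟨hj, rfl⟩
  refine (Set.encard_le_encard hsub).trans (encard_iUnion_le S _ M N hS fun v _ => ?_)
  rcases {j | j ∈ J ∧ j • b = v}.eq_empty_or_nonempty with he | ⟨j₀, hj₀, hv⟩
  · rw [he]; simp
  · have h1 : (fun j => j₀⁻¹ * j) '' {j | j ∈ J ∧ j • b = v} ⊆ {j | j ∈ J ∧ j • b = b} := by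
      rintro _ ⟨j, ⟨hj, hjv⟩, rfl⟩
      refine ⟨J.mul_mem (J.inv_mem hj₀) hj, ?_⟩
      rw [mul_smul, hjv, ← hv, inv_smul_smul]
    rw [← (mul_right_injective j₀⁻¹).encard_image]
    exact (Set.encard_le_encard h1).trans hN

/-- the group side of the stabilizer estimate -/
theorem stab_bound (h : Hyp d δ) (hR : Rel d A A2 M) (x₀ : V)
    (hG : ∀ (g : G) (x y : V), d (g • x) (g • y) = d x y) (N : ℕ) : ∃ B : ℕ, ∀ J : Subgroup G,
    (∀ a b : V, d a b = 1 → {j | j ∈ J ∧ j • a = a ∧ j • b = b}.encard ≤ N) →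
    (∀ f, IsHull d f → (∀ j ∈ J, ∀ x, f (j • x) = f x) →
      (J : Set G).encard ≤ B ∨ ∃ z c, ∀ x, f x = d x z + c) ∧
    ∀ z z' : V, z ≠ z' → (∀ j ∈ J, j • z = z ∧ j • z' = z') → (J : Set G).encard ≤ B := by
  obtain ⟨K, hK⟩ := argmin_bound h hR x₀
  refine ⟨K * (M * N) + M * N, fun J hJ => ⟨fun f hf hJf => ?_, fun z z' hne hz => ?_⟩⟩
  · by_contra hcon
    push Not at hcon
    obtain ⟨hB, hrad⟩ := hcon
    obtain ⟨s, ⟨z, hz⟩, hsK, hs⟩ := hK f hf
    have hzmin := (hs z).1 hz
    refine absurd hB (not_lt.2 ?_)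
    have key : {j | j ∈ J ∧ j • z = z}.encard ≤ ((M * N : ℕ) : ℕ∞) := by
      obtain ⟨t, ht1, ht2⟩ := id hf
      obtain ⟨p, hp, hpz⟩ := ht2 z
      have hzp : z ≠ p.1 := by
        intro hzp
        obtain ⟨x, hx⟩ := hrad z p.2
        refine hx (le_antisymm ?_ ?_)
        · have h1 := hf.lip h x z
          rw [← hzp, h.self] at hpz
          omega
        · have h1 := ht1 x p hp
          rwa [← hzp] at h1
      obtain ⟨b, hb, hb'⟩ := exists_next h hzp
      obtain ⟨x, hx⟩ := hrad z (f z)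
      have hx1 : f x < d x z + f z := lt_of_le_of_ne (by
        have := hf.lip h x z
        omega) hx
      have hxz : z ≠ x := by
        rintro rfl
        rw [h.self] at hx1
        omega
      obtain ⟨a, ha, ha'⟩ := exists_next h hxz
      have hfinal := orbit_count (J ⊓ MulAction.stabilizer G z) b {b' | d z b' = 1 ∧ A z a b'}
        (M := M) (hR.fin z a ha) (fun j hj => ?_) (N := (N : ℕ∞)) ?_
      · have e : {j | j ∈ J ∧ j • z = z} = ((J ⊓ MulAction.stabilizer G z : Subgroup G) : Set G) := by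
          ext j
          simp [MulAction.mem_stabilizer_iff]
        rw [e]
        push_cast
        exact hfinal
      · obtain ⟨hj1, hj2⟩ := Subgroup.mem_inf.1 hj
        rw [MulAction.mem_stabilizer_iff] at hj2
        have e1 : d z (j • b) = d z b := by
          conv_lhs => rw [← hj2]
          exact hG j z b
        have e2 : d (j • b) (j • p.1) = d b p.1 := hG j b p.1
        have e3 : d z (j • p.1) = d z p.1 := by
          conv_lhs => rw [← hj2]
          exact hG j z p.1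
        refine ⟨by rw [e1]; exact hb, hR.ang z x (j • p.1) a (j • b) ?_ ha ha'
          (by rw [e1]; exact hb) (by rw [e2, e3]; exact hb')⟩
        have e4 : f (j⁻¹ • x) = f x := by
          have := hJf j hj1 (j⁻¹ • x)
          rw [smul_inv_smul] at this
          exact this.symm
        have e5 : d (j⁻¹ • x) p.1 = d x (j • p.1) := by
          have := hG j (j⁻¹ • x) p.1
          rw [smul_inv_smul] at this
          exact this.symm
        have e6 := ht1 (j⁻¹ • x) p hp
        have e7 := h.symm x z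
        omega
      · refine (Set.encard_le_encard ?_).trans (hJ z b hb)
        rintro j ⟨hj, hjb⟩
        obtain ⟨hj1, hj2⟩ := Subgroup.mem_inf.1 hj
        exact ⟨hj1, hj2, hjb⟩
    have h2 := orbit_count J z (s : Set V) (M := K) (by simpa using hsK) (fun j hj => ?_) _ key
    · refine h2.trans ?_
      push_cast
      exact le_self_add
    · rw [Finset.mem_coe, hs]
      intro x
      rw [hJf j hj z]
      exact hzmin x
  · obtain ⟨b, hb, hb'⟩ := exists_next h hne
    refine (orbit_count J b {b' | d z b' = 1 ∧ A z b b'} (M := M) (hR.fin z b hb)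
      (fun j hj => ?_) (N := (N : ℕ∞)) ?_).trans ?_
    · obtain ⟨hj1, hj2⟩ := hz j hj
      have e1 : d z (j • b) = d z b := by
        conv_lhs => rw [← hj1]
        exact hG j z b
      have e2 : d (j • b) z' = d b z' := by
        conv_lhs => rw [← hj2]
        exact hG j b z'
      have e3 := h.nonneg z z'
      have e4 := h.self z'
      have e5 : d z z' ≠ 0 := fun h0 => hne (h.eq _ _ h0)
      have e6 := h.symm z z'
      exact ⟨by rw [e1]; exact hb, hR.ang z z' z' b (j • b) (by omega) hb hb' (by rw [e1]; exact hb)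
        (by rw [e2]; exact hb')⟩
    · refine (Set.encard_le_encard ?_).trans (hJ z b hb)
      rintro j ⟨hj, hjb⟩
      exact ⟨hj, (hz j hj).1, hjb⟩
    · push_cast
      exact le_add_self

end group

end Pool.Agent.UPH
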