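import Pool.Agent.Lib.UPH.Grp
import Pool.Agent.Lib.UPH.Stab
import Pool.Agent.Lib.UPH.PiChain

/-!
# Groups acting on finitely many graphs: the dichotomy for pointwise stabilizers
-/

set_option autoImplicit false

namespace Pool.Agent.UPH

/-- A group with a finite orbit. -/
theorem encard_le_of_orbit {G X : Type} [Group G] [MulAction G X] (J : Subgroup G) (y : X)
    (s : Finset X) (hs : ∀ j ∈ J, j • y ∈ s) (B : ℕ)
    (hB : ({j | j ∈ J ∧ j • y = y} : Set G).encard ≤ B) :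
    (J : Set G).encard ≤ (s.card * B : ℕ) := by
  have hsub : (J : Set G) ⊆ ⋃ p ∈ s, {g | g ∈ J ∧ g • y = p} := by
    intro g hg
    exact Set.mem_biUnion (hs g hg) ⟨hg, rfl⟩
  refine (Set.encard_le_encard hsub).trans ?_
  have h1 := encard_iUnion_finset_le s (fun p => {g : G | g ∈ J ∧ g • y = p}) (B : ℕ∞)
    fun p _ => by
      rcases ({g : G | g ∈ J ∧ g • y = p} : Set G).eq_empty_or_nonempty with he | ⟨g₀, hg₀, hp⟩
      · rw [he]; simp
      · refine (Set.encard_le_encard_of_injOn (f := fun g => g₀⁻¹ * g) ?_ ?_).trans hB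
        · rintro g ⟨hg, hgp⟩
          refine ⟨J.mul_mem (J.inv_mem hg₀) hg, ?_⟩
          rw [mul_smul, hgp, ← hp, inv_smul_smul]
        · intro a _ b _ hab
          exact mul_left_cancel hab
  refine h1.trans ?_
  push_cast
  exact le_rfl

variable {G ι : Type} [Group G] [Fintype ι] {V : ι → Type} [∀ i, MulAction G (V i)]
  {d : ∀ i, V i → V i → ℤ} {δ : ι → ℤ}

/-- The elements of a set of tuples of functions fixed by a group `J`: the order of `J` is
bounded, or all tuples are radial about one tuple of vertices. -/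
theorem dicho_pi (h : ∀ i, Hyp (d i) (δ i)) {J : Subgroup G} {K B : ℕ}
    (hS1 : ∀ i, ∀ f : V i → ℤ, IsHull (d i) f → ∃ s : Finset (V i), s.Nonempty ∧ s.card ≤ K ∧
      ∀ w, w ∈ s ↔ ∀ x, f w ≤ f x)
    (hR : ∀ i, ∀ H : Subgroup G, H ≤ J → (∃ v : ∀ j, V j, ∀ g ∈ H, ∀ j, j ≠ i → g • v j = v j) →
      (∀ f : V i → ℤ, IsHull (d i) f → (∀ j ∈ H, ∀ x, f (j • x) = f x) →
        (H : Set G).encard ≤ B ∨ ∃ z c, ∀ x, f x = d i x z + c) ∧
      (∀ z z' : V i, z ≠ z' → (∀ j ∈ H, j • z = z ∧ j • z' = z') → (H : Set G).encard ≤ B))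
    {T : Set (∀ i, Hull (d i))} (hT : T.Nonempty)
    (hJ : ∀ j ∈ J, ∀ t ∈ T, ∀ (i : ι) (x : V i), (t i).1 (j • x) = (t i).1 x) :
    (J : Set G).encard ≤ (K ^ Fintype.card ι * B : ℕ) ∨
      ∃ z : ∀ i, V i, ∀ t ∈ T, ∀ i, ∃ c, ∀ x, (t i).1 x = d i x (z i) + c := by
  classical
  by_cases hall : ∀ i, ∃ z : V i, ∀ t ∈ T, ∃ c, ∀ x, (t i).1 x = d i x z + c
  · choose z hz using hall
    exact Or.inr ⟨z, fun t ht i => hz i t ht⟩
  left
  push Not at hall
  obtain ⟨i, hi⟩ := hall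
  obtain ⟨t₀, ht₀⟩ := hT
  have hs := fun j => hS1 j (t₀ j).1 (t₀ j).2
  choose s hs1 hs2 hs3 using hs
  choose y hy using hs1
  -- the orbit of the tuple `y`
  have horb : ∀ g ∈ J, g • y ∈ Fintype.piFinset s := by
    intro g hg
    refine Fintype.mem_piFinset.2 fun j => (hs3 j _).2 fun x => ?_
    have h1 := hJ g hg t₀ ht₀ j (y j)
    rw [Pi.smul_apply, h1]
    exact (hs3 j _).1 (hy j) x
  set H : Subgroup G := J ⊓ MulAction.stabilizer G y with hH
  have hHfix : ∀ g ∈ H, ∀ j, g • y j = y j := fun g hg j => congrFun (show g • y = y from hg.2) j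
  obtain ⟨h1, h2⟩ := hR i H inf_le_left ⟨y, fun g hg j _ => hHfix g hg j⟩
  have hHB : (H : Set G).encard ≤ B := by
    have h3 := dicho (h i) (T := (fun t : ∀ i, Hull (d i) => t i) '' T) h1 h2
      ⟨_, ⟨t₀, ht₀, rfl⟩⟩ (by
        rintro g hg _ ⟨t, ht, rfl⟩ x
        exact hJ g hg.1 t ht i x)
    refine h3.resolve_right ?_
    rintro ⟨z, hz⟩
    obtain ⟨t, ht, htc⟩ := hi z
    obtain ⟨c, hc⟩ := hz _ ⟨t, ht, rfl⟩
    obtain ⟨x, hx⟩ := htc c
    exact hx (hc x)
  have h4 := encard_le_of_orbit J y (Fintype.piFinset s) horb B (by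
    refine (Set.encard_le_encard ?_).trans hHB
    rintro g ⟨hg1, hg2⟩
    exact ⟨hg1, hg2⟩)
  refine h4.trans ?_
  have h5 : (Fintype.piFinset s).card ≤ K ^ Fintype.card ι := by
    rw [Fintype.card_piFinset]
    calc ∏ j, (s j).card ≤ ∏ _j : ι, K := Finset.prod_le_prod' fun j _ => hs2 j
      _ = K ^ Fintype.card ι := by rw [Finset.prod_const, Finset.card_univ]
  exact_mod_cast Nat.mul_le_mul_right B h5

end Pool.Agent.UPH
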